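import Pool.Agent.T9h58.Hall.Fin

/-! # The cases `n = 2, 3`, and families showing that the exponents are optimal -/

set_option autoImplicit false

namespace Pool.Agent.T9h58.Hall

open WeierstrassCurve Finset

lemma low_shift (s : ℚ) (k : ℤ) (h : s + k ≠ 0) : 1 ≤ |(s : ℝ) + k| * s.den := by
  have hd := one_le_den s
  have hd0 : (0 : ℝ) < s.den := by linarith
  have h1 : s.num + k * (s.den : ℤ) ≠ 0 := by
    intro h0
    apply h
    have e : s + k = ((s.num + k * (s.den : ℤ) : ℤ) : ℚ) / s.den := by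
      have h2 : (s.den : ℚ) ≠ 0 := by exact_mod_cast s.den_ne_zero
      push_cast
      field_simp
      rw [mul_comm, mul_add, mul_comm (s.den : ℚ) s, Rat.mul_den_eq_num]
      ring
    rw [e, h0]
    simp
  have h2 : (1 : ℝ) ≤ |(s.num : ℝ) + k * s.den| := by
    have : (1 : ℤ) ≤ |s.num + k * (s.den : ℤ)| := Int.one_le_abs h1
    exact_mod_cast this
  have e : |(s : ℝ) + k| * s.den = |(s.num : ℝ) + k * s.den| := by
    rw [cast_eq s]
    have : (s.num : ℝ) + k * s.den = ((s.num : ℝ) / s.den + k) * s.den := by field_simp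
    rw [this, abs_mul, abs_of_pos hd0]
  rw [e]
  exact h2

lemma elem2 (s t : ℚ) (h : R2 s t) : |(t : ℝ)| ≤ 32 * Hq s ^ (3 : ℝ) := by
  obtain ⟨h0, h1⟩ := h
  have hr : (t : ℝ) * (64 * ((s : ℝ) + 1) ^ 3) = s * ((s : ℝ) - 8) ^ 3 := by exact_mod_cast h1
  have ha : |(t : ℝ)| * (64 * |(s : ℝ) + 1| ^ 3) = |(s : ℝ)| * |(s : ℝ) - 8| ^ 3 := by
    have := congrArg abs hr
    simpa [abs_mul, abs_pow] using this
  have hl := low_shift s 1 (by exact_mod_cast h0)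
  push_cast at hl
  have hd := one_le_den s
  have hH := den_le s
  obtain ⟨u, hu⟩ : ∃ u : ℝ, u = |(s : ℝ) + 1| := ⟨_, rfl⟩
  obtain ⟨D, hD⟩ : ∃ D : ℝ, D = s.den := ⟨_, rfl⟩
  obtain ⟨T, hT⟩ : ∃ T : ℝ, T = |(t : ℝ)| := ⟨_, rfl⟩
  obtain ⟨H, hHH⟩ : ∃ H : ℝ, H = Hq s := ⟨_, rfl⟩
  have hM : |(s : ℝ)| ≤ H := by rw [hHH]; exact (abs_le_M s).trans (M_le_Hq s)
  rw [show (3 : ℝ) = ((3 : ℕ) : ℝ) by norm_num, Real.rpow_natCast, ← hHH, ← hT]
  rw [← hu, ← hT] at ha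
  rw [← hu, ← hD] at hl
  rw [← hD] at hd hH
  rw [← hHH] at hH
  have hT0 : 0 ≤ T := by rw [hT]; exact abs_nonneg _
  have hu0 : 0 < u := by
    by_contra hc
    push Not at hc
    nlinarith
  have hsu : |(s : ℝ)| ≤ u + 1 := by
    rw [hu]
    calc |(s : ℝ)| = |((s : ℝ) + 1) + -1| := by congr 1; ring
      _ ≤ |(s : ℝ) + 1| + |(-1 : ℝ)| := abs_add_le _ _
      _ = _ := by norm_num
  have hsu8 : |(s : ℝ) - 8| ≤ u + 9 := by
    rw [hu]
    calc |(s : ℝ) - 8| = |((s : ℝ) + 1) + -9| := by congr 1; ring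
      _ ≤ |(s : ℝ) + 1| + |(-9 : ℝ)| := abs_add_le _ _
      _ = _ := by norm_num
  have hH1 : 1 ≤ H := by linarith
  have hs0 := abs_nonneg (s : ℝ)
  have hs8 := abs_nonneg ((s : ℝ) - 8)
  have hH3 : H ≤ H ^ 3 := by nlinarith [mul_nonneg (by linarith : (0:ℝ) ≤ H - 1) (by nlinarith : (0:ℝ) ≤ H * (H + 1))]
  by_cases hu1 : 1 ≤ u
  · have h5 : |(s : ℝ) - 8| ^ 3 ≤ (10 * u) ^ 3 := pow_le_pow_left₀ hs8 (by linarith) 3
    have hu3 : 0 < u ^ 3 := by positivity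
    have h6 : T * (64 * u ^ 3) ≤ H * (1000 * u ^ 3) := by
      rw [ha]
      calc |(s : ℝ)| * |(s : ℝ) - 8| ^ 3 ≤ H * (10 * u) ^ 3 := mul_le_mul hM h5 (by positivity) (by linarith)
        _ = _ := by ring
    have h7 : T * 64 ≤ H * 1000 := by
      by_contra hc
      push Not at hc
      nlinarith
    linarith
  · push Not at hu1
    have h5 : |(s : ℝ) - 8| ^ 3 ≤ 10 ^ 3 := pow_le_pow_left₀ hs8 (by linarith) 3
    have h6 : T * (64 * u ^ 3) ≤ 2 * 10 ^ 3 := by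
      rw [ha]
      exact mul_le_mul (by linarith) h5 (by positivity) (by norm_num)
    have h7 : 1 ≤ u ^ 3 * D ^ 3 := by
      rw [← mul_pow]
      exact one_le_pow₀ hl
    have hD3 : D ^ 3 ≤ H ^ 3 := pow_le_pow_left₀ (by linarith) hH 3
    have hD30 : 0 ≤ D ^ 3 := by positivity
    calc T = T * 1 := by ring
      _ ≤ T * (u ^ 3 * D ^ 3) := mul_le_mul_of_nonneg_left h7 hT0
      _ = (T * (64 * u ^ 3)) * (D ^ 3 / 64) := by ring
      _ ≤ (2 * 10 ^ 3) * (D ^ 3 / 64) := mul_le_mul_of_nonneg_right h6 (by positivity)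
      _ ≤ 32 * H ^ 3 := by linarith

lemma elem3 (s t : ℚ) (h : ∃ t', R3 s t' ∧ R3 t' t) : |(t : ℝ)| ≤ 7104 ^ 3 * Hq s ^ (6 : ℝ) := by
  obtain ⟨t', ⟨h0, h1⟩, h2, h3⟩ := h
  have hs4 : s + 4 ≠ 0 := by
    intro h5
    apply h2
    rw [h5] at h1
    have h6 : t' * (27 * s ^ 2) = 0 := by rw [h1]; ring
    rcases mul_eq_zero.1 h6 with h7 | h7
    · exact h7
    · exact absurd h7 (by positivity)
  have h6 : t * (729 * s ^ 2 * (s + 4) ^ 6) = (s ^ 3 - 96 * s ^ 2 + 48 * s + 64) ^ 3 := by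
    have e1 : t' = -(s + 4) ^ 3 / (27 * s ^ 2) := by
      rw [eq_div_iff (by positivity)]
      exact h1
    rw [e1] at h3
    field_simp at h3
    linear_combination h3
  have hr : (t : ℝ) * (729 * (s : ℝ) ^ 2 * ((s : ℝ) + 4) ^ 6) =
      ((s : ℝ) ^ 3 - 96 * s ^ 2 + 48 * s + 64) ^ 3 := by exact_mod_cast h6
  have ha : |(t : ℝ)| * (729 * |(s : ℝ)| ^ 2 * |(s : ℝ) + 4| ^ 6) =
      |(s : ℝ) ^ 3 - 96 * s ^ 2 + 48 * s + 64| ^ 3 := by
    have := congrArg abs hr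
    rw [abs_mul, abs_mul, abs_mul, abs_pow, abs_pow, abs_pow] at this
    rw [abs_of_pos (by norm_num : (0 : ℝ) < 729)] at this
    exact this
  have hl0 := low_shift s 0 (by simpa using h0)
  have hl := low_shift s 4 (by exact_mod_cast hs4)
  push_cast at hl hl0
  rw [add_zero] at hl0
  have hd := one_le_den s
  have hH := den_le s
  obtain ⟨u, hu⟩ : ∃ u : ℝ, u = |(s : ℝ) + 4| := ⟨_, rfl⟩
  obtain ⟨v, hv⟩ : ∃ v : ℝ, v = |(s : ℝ)| := ⟨_, rfl⟩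
  obtain ⟨D, hD⟩ : ∃ D : ℝ, D = s.den := ⟨_, rfl⟩
  obtain ⟨T, hT⟩ : ∃ T : ℝ, T = |(t : ℝ)| := ⟨_, rfl⟩
  obtain ⟨H, hHH⟩ : ∃ H : ℝ, H = Hq s := ⟨_, rfl⟩
  have hM : v ≤ H := by rw [hHH, hv]; exact (abs_le_M s).trans (M_le_Hq s)
  have hnum : |(s : ℝ) ^ 3 - 96 * s ^ 2 + 48 * s + 64| ≤ v ^ 3 + 96 * v ^ 2 + 48 * v + 64 := by
    calc |(s : ℝ) ^ 3 - 96 * s ^ 2 + 48 * s + 64|
        ≤ |(s : ℝ) ^ 3 - 96 * s ^ 2 + 48 * s| + |(64 : ℝ)| := abs_add_le _ _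
      _ ≤ |(s : ℝ) ^ 3 - 96 * s ^ 2| + |48 * (s : ℝ)| + |(64 : ℝ)| := by
          gcongr
          exact abs_add_le _ _
      _ ≤ |(s : ℝ) ^ 3| + |96 * (s : ℝ) ^ 2| + |48 * (s : ℝ)| + |(64 : ℝ)| := by
          gcongr
          exact abs_sub _ _
      _ = _ := by
          rw [abs_mul, abs_mul, abs_pow, abs_pow, hv]
          norm_num
  have hn0 := abs_nonneg ((s : ℝ) ^ 3 - 96 * s ^ 2 + 48 * s + 64)
  rw [show (6 : ℝ) = ((6 : ℕ) : ℝ) by norm_num, Real.rpow_natCast, ← hHH, ← hT]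
  rw [← hu, ← hv, ← hT] at ha
  rw [← hu, ← hD] at hl
  rw [← hv, ← hD] at hl0
  rw [← hD] at hd hH
  rw [← hHH] at hH
  have hT0 : 0 ≤ T := by rw [hT]; exact abs_nonneg _
  have hu0 : 0 < u := by
    by_contra hc
    push Not at hc
    nlinarith
  have hv0 : 0 < v := by
    by_contra hc
    push Not at hc
    nlinarith
  have huv : v ≤ u + 4 := by
    rw [hu, hv]
    calc |(s : ℝ)| = |((s : ℝ) + 4) + -4| := by congr 1; ring
      _ ≤ |(s : ℝ) + 4| + |(-4 : ℝ)| := abs_add_le _ _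
      _ = _ := by norm_num
  have huv' : 4 ≤ u + v := by
    rw [hu, hv]
    calc (4 : ℝ) = |((s : ℝ) + 4) + -(s : ℝ)| := by norm_num
      _ ≤ |(s : ℝ) + 4| + |-(s : ℝ)| := abs_add_le _ _
      _ = _ := by rw [abs_neg]
  have hH1 : 1 ≤ H := by linarith
  have hH6 : 1 ≤ H ^ 6 := one_le_pow₀ hH1
  have hHH6 : H ≤ H ^ 6 := by
    have h5 : 1 ≤ H ^ 5 := one_le_pow₀ hH1
    calc H = H * 1 := by ring
      _ ≤ H * H ^ 5 := mul_le_mul_of_nonneg_left h5 (by linarith)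
      _ = _ := by ring
  have hD6 : D ^ 6 ≤ H ^ 6 := pow_le_pow_left₀ (by linarith) hH 6
  by_cases hv8 : 8 ≤ v
  · have hu1 : v / 2 ≤ u := by linarith
    have hu6 : (v / 2) ^ 6 ≤ u ^ 6 := pow_le_pow_left₀ (by linarith) hu1 6
    have h5 : v ^ 3 + 96 * v ^ 2 + 48 * v + 64 ≤ 14 * v ^ 3 := by
      nlinarith [mul_nonneg (by linarith : (0:ℝ) ≤ v - 8) (by positivity : (0:ℝ) ≤ v ^ 2),
        mul_nonneg (by linarith : (0:ℝ) ≤ v - 8) (by positivity : (0:ℝ) ≤ v), mul_nonneg (by linarith : (0:ℝ) ≤ v - 8) (by linarith : (0:ℝ) ≤ v - 8)]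
    have h7 : |(s : ℝ) ^ 3 - 96 * s ^ 2 + 48 * s + 64| ^ 3 ≤ (14 * v ^ 3) ^ 3 :=
      pow_le_pow_left₀ hn0 (hnum.trans h5) 3
    have h8 : T * (729 * v ^ 2 * (v / 2) ^ 6) ≤ (14 * v ^ 3) ^ 3 := by
      calc T * (729 * v ^ 2 * (v / 2) ^ 6) ≤ T * (729 * v ^ 2 * u ^ 6) := by gcongr
        _ ≤ _ := by rw [ha]; exact h7
    have h9 : (T * 729) * v ^ 8 ≤ (2744 * 64 * v) * v ^ 8 := by
      calc (T * 729) * v ^ 8 = T * (729 * v ^ 2 * (v / 2) ^ 6) * 64 := by ring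
        _ ≤ (14 * v ^ 3) ^ 3 * 64 := by linarith
        _ = _ := by ring
    have h10 : T * 729 ≤ 2744 * 64 * v := le_of_mul_le_mul_right h9 (by positivity)
    have h11 : T ≤ 241 * v := by linarith
    calc T ≤ 241 * v := h11
      _ ≤ 241 * H ^ 6 := by linarith
      _ ≤ 7104 ^ 3 * H ^ 6 := mul_le_mul_of_nonneg_right (by norm_num) (by positivity)
  · push Not at hv8
    have h5 : v ^ 3 + 96 * v ^ 2 + 48 * v + 64 ≤ 7104 := by
      have h6 : v ^ 2 ≤ 64 := by nlinarith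
      have h7 : v ^ 3 ≤ 512 := by nlinarith
      linarith
    have h7 : T * (729 * v ^ 2 * u ^ 6) ≤ 7104 ^ 3 := by
      rw [ha]
      exact pow_le_pow_left₀ hn0 (hnum.trans h5) 3
    have hkey : 1 ≤ (729 * v ^ 2 * u ^ 6) * D ^ 6 := by
      rcases le_or_gt 2 v with hv2 | hv2
      · have e1 : 1 ≤ v ^ 2 := one_le_pow₀ (by linarith)
        have e2 : 1 ≤ (u * D) ^ 6 := one_le_pow₀ hl
        calc (1 : ℝ) ≤ 729 * (1 * 1) := by norm_num
          _ ≤ 729 * (v ^ 2 * (u * D) ^ 6) := by gcongr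
          _ = _ := by ring
      · have e1 : 1 ≤ u ^ 6 := one_le_pow₀ (by linarith)
        have e2 : 1 ≤ (v * D) ^ 2 := one_le_pow₀ hl0
        have e3 : 1 ≤ D ^ 4 := one_le_pow₀ hd
        calc (1 : ℝ) ≤ 729 * (1 * 1 * 1) := by norm_num
          _ ≤ 729 * ((v * D) ^ 2 * u ^ 6 * D ^ 4) := by gcongr
          _ = _ := by ring
    calc T = T * 1 := by ring
      _ ≤ T * ((729 * v ^ 2 * u ^ 6) * D ^ 6) := mul_le_mul_of_nonneg_left hkey hT0
      _ = (T * (729 * v ^ 2 * u ^ 6)) * D ^ 6 := by ring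
      _ ≤ 7104 ^ 3 * H ^ 6 := mul_le_mul h7 hD6 (by positivity) (by norm_num)

lemma nons {d : ℤ} {x y : ℚ} (h : y ^ 2 = x ^ 3 + d) (hy : y ≠ 0) : (curve d).Nonsingular x y := by
  rw [WeierstrassCurve.Affine.nonsingular_iff, WeierstrassCurve.Affine.equation_iff]
  refine ⟨by simpa [curve] using h, Or.inr ?_⟩
  simp only [curve]
  intro h5
  apply hy
  linarith

/-- the point `(x, y)` is `n` times a rational point of `y² = x³ + d` -/
def IsMul (n : ℕ) (d x y : ℤ) : Prop :=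
  ∃ (h : (curve d).Nonsingular (x : ℚ) (y : ℚ)) (P : (curve d).Point),
    n • P = Affine.Point.some (x : ℚ) (y : ℚ) h

lemma family2 (k : ℤ) (hk : 1 ≤ k) :
    IsMul 2 (1 - 8 * k ^ 3) (36 * k ^ 4 - 4 * k) (-216 * k ^ 6 + 36 * k ^ 3 - 1) := by
  have hP : (curve (1 - 8 * k ^ 3)).Nonsingular (2 * k : ℚ) 1 := by
    apply nons
    · push_cast
      ring
    · exact one_ne_zero
  rcases e2 : 2 • Affine.Point.some (2 * k : ℚ) 1 hP with _ | ⟨x₂, y₂, h₂⟩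
  · exfalso
    rw [two_nsmul] at e2
    have hy : (1 : ℚ) ≠ (curve (1 - 8 * k ^ 3)).negY (2 * k : ℚ) 1 := by
      rw [negY_eq]
      norm_num
    rw [Affine.Point.add_self_of_Y_ne hy] at e2
    exact absurd e2 (Affine.Point.some_ne_zero _)
  · have e3 := e2
    rw [two_nsmul] at e3
    obtain ⟨-, hx, hy⟩ := dbl e3
    have hx' : x₂ = ((36 * k ^ 4 - 4 * k : ℤ) : ℚ) := by
      rw [hx]
      push_cast
      ring
    have hy' : y₂ = ((-216 * k ^ 6 + 36 * k ^ 3 - 1 : ℤ) : ℚ) := by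
      rw [hy, hx]
      push_cast
      ring
    subst hx'
    subst hy'
    exact ⟨h₂, _, e2⟩

lemma family3 (k : ℤ) (hk : 0 ≤ k) (D : ℤ) (hD : D = -((3 * k + 1) * (k + 1))) :
    ∃ y : ℤ, IsMul 3 (729 * (1 - 4 * D) ^ 2 * D) (1 - 108 * D + 864 * D ^ 2 - 1728 * D ^ 3) y := by
  obtain ⟨A, hA⟩ : ∃ A : ℤ, A = 1 - 4 * D := ⟨_, rfl⟩
  obtain ⟨e, he⟩ : ∃ e : ℤ, e = 3 * k + 2 := ⟨_, rfl⟩
  have hDneg : D ≤ -1 := by
    rw [hD]
    nlinarith [mul_nonneg hk hk]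
  have hA0 : (A : ℚ) ≠ 0 := by
    have : A ≠ 0 := by
      rw [hA]
      omega
    exact_mod_cast this
  have he0 : (e : ℚ) ≠ 0 := by
    have : e ≠ 0 := by
      rw [he]
      omega
    exact_mod_cast this
  obtain ⟨d, hd⟩ : ∃ d : ℤ, d = 729 * (1 - 4 * D) ^ 2 * D := ⟨_, rfl⟩
  have hdA : (d : ℚ) = 729 * A ^ 2 * D := by
    rw [hd, hA]
    push_cast
    ring
  have hA' : (A : ℚ) = 1 - 4 * D := by rw [hA]; push_cast; ring
  have he' : (e : ℚ) ^ 2 = 1 - 3 * D := by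
    have : e ^ 2 = 1 - 3 * D := by rw [he, hD]; ring
    exact_mod_cast this
  have hd0 : d ≠ 0 := by
    intro h0
    rw [h0] at hdA
    have hD0 : (D : ℚ) ≠ 0 := by
      have : D ≠ 0 := by omega
      exact_mod_cast this
    have : (729 * A ^ 2 * D : ℚ) ≠ 0 := by positivity
    apply this
    rw [← hdA]
    norm_num
  have hP : (curve d).Nonsingular (9 * A : ℚ) (27 * A * e) := by
    apply nons
    · rw [hdA]
      linear_combination (729 * (A : ℚ) ^ 2) * he' - (729 * (A : ℚ) ^ 2) * hA'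
    · positivity
  have hsum : (9 * A : ℚ) ^ 3 + 4 * d = 729 * A ^ 2 := by
    rw [hdA]
    calc (9 * A : ℚ) ^ 3 + 4 * (729 * A ^ 2 * D) = 729 * A ^ 2 * (A + 4 * D) := by ring
      _ = _ := by rw [hA']; ring
  have hne : (9 * A : ℚ) ^ 3 + 4 * d ≠ 0 := by rw [hsum]; positivity
  have h9 : (9 * A : ℚ) ≠ 0 := by positivity
  rw [← hd]
  rcases e3 : 3 • Affine.Point.some (9 * A : ℚ) (27 * A * e) hP with _ | ⟨x₂, y₂, h₂⟩
  · exfalso
    -- then `2 P = -P`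
    rw [show 3 = 2 + 1 from rfl, add_nsmul, one_nsmul] at e3
    have e4 : 2 • Affine.Point.some (9 * A : ℚ) (27 * A * e) hP = -Affine.Point.some (9 * A : ℚ) (27 * A * e) hP :=
      eq_neg_of_add_eq_zero_left e3
    rw [Affine.Point.neg_some] at e4
    obtain ⟨-, h5⟩ := dbl_x e4
    have h6 : 3 * (9 * A : ℚ) * ((9 * A : ℚ) ^ 3 + 4 * d) = 0 := by linear_combination h5
    exact absurd h6 (by positivity)
  · obtain ⟨-, -, h5⟩ := trp_x hd0 e3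
    have hx' : x₂ = ((1 - 108 * D + 864 * D ^ 2 - 1728 * D ^ 3 : ℤ) : ℚ) := by
      have h6 : (9 * (9 * A : ℚ) ^ 2 * ((9 * A : ℚ) ^ 3 + 4 * d) ^ 2) ≠ 0 := by positivity
      apply mul_right_cancel₀ h6
      rw [h5, hdA]
      push_cast
      rw [hA']
      ring
    have hy2 : y₂ ^ 2 = ((e * (1 + 204 * D - 4320 * D ^ 2 + 24192 * D ^ 3 - 41472 * D ^ 4) : ℤ) : ℚ) ^ 2 := by
      rw [curve_eq h₂, hx', hdA, hA']
      push_cast
      rw [mul_pow, he']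
      ring
    rcases sq_eq_sq_iff_eq_or_eq_neg.1 hy2 with hy | hy
    · subst hx'
      subst hy
      exact ⟨_, h₂, _, e3⟩
    · have hy' : y₂ = ((-(e * (1 + 204 * D - 4320 * D ^ 2 + 24192 * D ^ 3 - 41472 * D ^ 4)) : ℤ) : ℚ) := by
        rw [hy]
        push_cast
        ring
      subst hx'
      subst hy'
      exact ⟨_, h₂, _, e3⟩

end Pool.Agent.T9h58.Hall
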