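import Pool.Agent.T9h58.Hall.Lat

/-! # Heights of rational numbers under duplication and under the 3-isogeny -/

set_option autoImplicit false

namespace Pool.Agent.T9h58.Hall

/-- the height `max(|p|, q)` of `p / q` -/
noncomputable def Hq (s : ℚ) : ℝ := max |(s.num : ℝ)| (s.den : ℝ)

lemma den_le (s : ℚ) : (s.den : ℝ) ≤ Hq s := le_max_right _ _
lemma num_le (s : ℚ) : |(s.num : ℝ)| ≤ Hq s := le_max_left _ _
lemma one_le_den (s : ℚ) : (1 : ℝ) ≤ s.den := by exact_mod_cast s.pos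
lemma one_le_Hq (s : ℚ) : 1 ≤ Hq s := (one_le_den s).trans (den_le s)
lemma Hq_pos (s : ℚ) : 0 < Hq s := lt_of_lt_of_le one_pos (one_le_Hq s)

lemma cast_eq (s : ℚ) : (s : ℝ) = s.num / s.den := by
  exact_mod_cast (Rat.num_div_den s).symm

lemma M_le_Hq (s : ℚ) : M s ≤ Hq s := by
  unfold M
  refine max_le (one_le_Hq s) ?_
  rw [cast_eq, abs_div, abs_of_nonneg (by positivity : (0 : ℝ) ≤ s.den)]
  have h1 := one_le_den s
  rw [div_le_iff₀ (by linarith)]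
  have h2 := num_le s
  have h3 := one_le_Hq s
  nlinarith [abs_nonneg (s.num : ℝ)]

/-- abstract form of the lower bound -/
lemma low (k : ℕ) (A D N E p q : ℤ) (c c' : ℤ) (hc : c ≠ 0) (hc' : c' ≠ 0) (hAD : IsCoprime A D)
    (hpq : IsCoprime p q) (hq : q ≠ 0) (e : p * E = q * N) (U V U' V' : ℤ)
    (h1 : c * A ^ k = U * N + V * E) (h2 : c' * D ^ k = U' * N + V' * E) :
    |(N : ℝ)| ≤ |(c * c' : ℝ)| * |(p : ℝ)| ∧ |(E : ℝ)| ≤ |(c * c' : ℝ)| * |(q : ℝ)| := by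
  have hqE : q ∣ E := hpq.symm.dvd_of_dvd_mul_left ⟨N, e⟩
  obtain ⟨g, hg⟩ := hqE
  have hN : N = p * g := by
    have : q * (p * g) = q * N := by rw [← e, hg]; ring
    exact (mul_left_cancel₀ hq this).symm
  have hgA : g ∣ c * c' * A ^ k := by
    rw [show c * c' * A ^ k = c' * (c * A ^ k) by ring, h1, hN, hg]
    exact ⟨c' * (U * p + V * q), by ring⟩
  have hgD : g ∣ c * c' * D ^ k := by
    rw [show c * c' * D ^ k = c * (c' * D ^ k) by ring, h2, hN, hg]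
    exact ⟨c * (U' * p + V' * q), by ring⟩
  have hcop : IsCoprime (A ^ k) (D ^ k) := hAD.pow
  have hgc : g ∣ c * c' := by
    obtain ⟨u, v, huv⟩ := hcop
    have : c * c' = u * (c * c' * A ^ k) + v * (c * c' * D ^ k) := by
      calc c * c' = c * c' * (u * A ^ k + v * D ^ k) := by rw [huv, mul_one]
        _ = _ := by ring
    rw [this]
    exact dvd_add (hgA.mul_left u) (hgD.mul_left v)
  have hgle : |g| ≤ |c * c'| := Int.le_of_dvd (abs_pos.2 (mul_ne_zero hc hc')) (by rw [abs_dvd, dvd_abs]; exact hgc)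
  have hgle' : |(g : ℝ)| ≤ |(c * c' : ℝ)| := by exact_mod_cast hgle
  constructor
  · rw [hN, Int.cast_mul, abs_mul, mul_comm]
    exact mul_le_mul_of_nonneg_right hgle' (abs_nonneg _)
  · rw [hg, Int.cast_mul, abs_mul, mul_comm]
    exact mul_le_mul_of_nonneg_right hgle' (abs_nonneg _)

/-- the property of a relation to multiply the logarithmic height by `n` -/
def Hts (n : ℕ) (R : ℚ → ℚ → Prop) : Prop := ∃ C : ℝ, 0 < C ∧ ∀ s t, R s t → Hq s ^ n ≤ C * Hq t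

lemma coprime_num_den (s : ℚ) : IsCoprime s.num (s.den : ℤ) := by
  rw [Int.isCoprime_iff_gcd_eq_one]
  simpa [Int.gcd, Int.natAbs_natCast] using s.reduced

lemma ht2 : Hts 4 R2 := by
  refine ⟨4 * 10 ^ 6 * (19683 * 1259712), by norm_num, ?_⟩
  rintro s t ⟨hs, hst⟩
  have hsd : (s.den : ℤ) ≠ 0 := by exact_mod_cast s.den_ne_zero
  have htd : (t.den : ℤ) ≠ 0 := by exact_mod_cast t.den_ne_zero
  obtain ⟨A, hA⟩ : ∃ A : ℤ, A = s.num := ⟨_, rfl⟩
  obtain ⟨D, hD⟩ : ∃ D : ℤ, D = s.den := ⟨_, rfl⟩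
  obtain ⟨p, hp⟩ : ∃ p : ℤ, p = t.num := ⟨_, rfl⟩
  obtain ⟨q, hq⟩ : ∃ q : ℤ, q = t.den := ⟨_, rfl⟩
  have hD0 : D ≠ 0 := by rw [hD]; exact hsd
  have hq0 : q ≠ 0 := by rw [hq]; exact htd
  have hD0' : (D : ℚ) ≠ 0 := by exact_mod_cast hD0
  have hq0' : (q : ℚ) ≠ 0 := by exact_mod_cast hq0
  have es : s = A / D := by rw [hA, hD]; exact_mod_cast (Rat.num_div_den s).symm
  have et : t = p / q := by rw [hp, hq]; exact_mod_cast (Rat.num_div_den t).symm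
  have e : p * (64 * D * (A + D) ^ 3) = q * (A * (A - 8 * D) ^ 3) := by
    rw [es, et] at hst
    field_simp at hst
    have h : (p : ℚ) * (64 * D * (A + D) ^ 3) = q * (A * (A - 8 * D) ^ 3) := by
      linear_combination hst
    exact_mod_cast h
  have hAD : IsCoprime A D := by rw [hA, hD]; exact coprime_num_den s
  have hpq : IsCoprime p q := by rw [hp, hq]; exact coprime_num_den t
  have h1 : 19683 * A ^ 7 = (19456 * D ^ 3 + 58496 * A * D ^ 2 + 58696 * A ^ 2 * D + 19683 * A ^ 3) *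
      (A * (A - 8 * D) ^ 3) + (155648 * A * D ^ 2 - 57344 * A ^ 2 * D + 6464 * A ^ 3) *
      (64 * D * (A + D) ^ 3) := by ring
  have h2 : 1259712 * D ^ 7 = (6464 * D ^ 3 + 7168 * A * D ^ 2 + 2432 * A ^ 2 * D) *
      (A * (A - 8 * D) ^ 3) + (19683 * D ^ 3 - 7337 * A * D ^ 2 + 914 * A ^ 2 * D - 38 * A ^ 3) *
      (64 * D * (A + D) ^ 3) := by ring
  obtain ⟨b1, b2⟩ := low 7 A D _ _ p q 19683 1259712 (by norm_num) (by norm_num) hAD hpq hq0 e _ _ _ _ h1 h2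
  obtain ⟨N, hN⟩ : ∃ N : ℝ, N = ((A * (A - 8 * D) ^ 3 : ℤ) : ℝ) := ⟨_, rfl⟩
  obtain ⟨E, hE⟩ : ∃ E : ℝ, E = ((64 * D * (A + D) ^ 3 : ℤ) : ℝ) := ⟨_, rfl⟩
  rw [← hN] at b1
  rw [← hE] at b2
  have hpH : |(p : ℝ)| ≤ Hq t := by rw [hp]; exact num_le t
  have hqH : |(q : ℝ)| ≤ Hq t := by
    rw [hq]
    have := den_le t
    rw [abs_of_nonneg (by positivity)]
    exact_mod_cast this
  have hAH : |(A : ℝ)| ≤ Hq s := by rw [hA]; exact num_le s
  have hDH : |(D : ℝ)| ≤ Hq s := by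
    rw [hD]
    have := den_le s
    rw [abs_of_nonneg (by positivity)]
    exact_mod_cast this
  have hcc : |((19683 : ℤ) * (1259712 : ℤ) : ℝ)| = 19683 * 1259712 := by norm_num
  rw [hcc] at b1 b2
  have hT : 0 < Hq t := Hq_pos t
  have hS : 0 < Hq s := Hq_pos s
  obtain ⟨m, hm⟩ : ∃ m : ℝ, m = (19683 * 1259712 : ℝ) * Hq t := ⟨_, rfl⟩
  have hm0 : 0 ≤ m := by rw [hm]; positivity
  have hNm : |N| ≤ m := by rw [hm]; exact b1.trans (mul_le_mul_of_nonneg_left hpH (by norm_num))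
  have hEm : |E| ≤ m := by rw [hm]; exact b2.trans (mul_le_mul_of_nonneg_left hqH (by norm_num))
  -- monomials
  have m30 : |(D : ℝ) ^ 3| ≤ Hq s ^ 3 := by rw [abs_pow]; exact pow_le_pow_left₀ (abs_nonneg _) hDH 3
  have m03 : |(A : ℝ) ^ 3| ≤ Hq s ^ 3 := by rw [abs_pow]; exact pow_le_pow_left₀ (abs_nonneg _) hAH 3
  have m12 : |(A : ℝ) * D ^ 2| ≤ Hq s ^ 3 := by
    rw [abs_mul, abs_pow]
    calc |(A : ℝ)| * |(D : ℝ)| ^ 2 ≤ Hq s * Hq s ^ 2 :=
          mul_le_mul hAH (pow_le_pow_left₀ (abs_nonneg _) hDH 2) (by positivity) hS.le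
      _ = _ := by ring
  have m21 : |(A : ℝ) ^ 2 * D| ≤ Hq s ^ 3 := by
    rw [abs_mul, abs_pow]
    calc |(A : ℝ)| ^ 2 * |(D : ℝ)| ≤ Hq s ^ 2 * Hq s :=
          mul_le_mul (pow_le_pow_left₀ (abs_nonneg _) hAH 2) hDH (by positivity) (by positivity)
      _ = _ := by ring
  have hlin : ∀ a b c e : ℝ, |a * (D : ℝ) ^ 3 + b * ((A : ℝ) * D ^ 2) + c * ((A : ℝ) ^ 2 * D) + e * (A : ℝ) ^ 3| ≤
      (|a| + |b| + |c| + |e|) * Hq s ^ 3 := by
    intro a b c e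
    have t1 : |a * (D : ℝ) ^ 3| ≤ |a| * Hq s ^ 3 := by rw [abs_mul]; exact mul_le_mul_of_nonneg_left m30 (abs_nonneg _)
    have t2 : |b * ((A : ℝ) * D ^ 2)| ≤ |b| * Hq s ^ 3 := by rw [abs_mul]; exact mul_le_mul_of_nonneg_left m12 (abs_nonneg _)
    have t3 : |c * ((A : ℝ) ^ 2 * D)| ≤ |c| * Hq s ^ 3 := by rw [abs_mul]; exact mul_le_mul_of_nonneg_left m21 (abs_nonneg _)
    have t4 : |e * (A : ℝ) ^ 3| ≤ |e| * Hq s ^ 3 := by rw [abs_mul]; exact mul_le_mul_of_nonneg_left m03 (abs_nonneg _)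
    refine (abs_add_le _ _).trans ?_
    refine (add_le_add ((abs_add_le _ _).trans (add_le_add (abs_add_le _ _) le_rfl)) le_rfl).trans ?_
    linarith
  have hcomb : ∀ u v : ℝ, |u| ≤ 160000 * Hq s ^ 3 → |v| ≤ 240000 * Hq s ^ 3 → |u * N + v * E| ≤ 400000 * Hq s ^ 3 * m := by
    intro u v hu hv
    refine (abs_add_le _ _).trans ?_
    rw [abs_mul, abs_mul]
    have h3 : 0 ≤ Hq s ^ 3 := by positivity
    calc |u| * |N| + |v| * |E| ≤ (160000 * Hq s ^ 3) * m + (240000 * Hq s ^ 3) * m :=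
          add_le_add (mul_le_mul hu hNm (abs_nonneg _) (by positivity)) (mul_le_mul hv hEm (abs_nonneg _) (by positivity))
      _ = _ := by ring
  have key : Hq s ^ 7 ≤ 400000 * Hq s ^ 3 * m := by
    have h3 : 0 ≤ Hq s ^ 3 := by positivity
    rcases le_total |(s.num : ℝ)| (s.den : ℝ) with hle | hle
    · have hH : Hq s = D := by
        unfold Hq
        rw [max_eq_right hle, hD]
        norm_num
      have r2 : (1259712 : ℝ) * (D : ℝ) ^ 7 = (6464 * (D : ℝ) ^ 3 + 7168 * ((A : ℝ) * D ^ 2) + 2432 * ((A : ℝ) ^ 2 * D) + 0 * (A : ℝ) ^ 3) *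
          N + (19683 * (D : ℝ) ^ 3 + (-7337) * ((A : ℝ) * D ^ 2) + 914 * ((A : ℝ) ^ 2 * D) + (-38) * (A : ℝ) ^ 3) * E := by
        rw [hN, hE]
        push_cast
        ring
      have hb := hcomb _ _ ((hlin 6464 7168 2432 0).trans (by norm_num [abs_of_nonneg]; nlinarith))
        ((hlin 19683 (-7337) 914 (-38)).trans (by norm_num [abs_of_nonneg]; nlinarith))
      rw [← r2] at hb
      have hD0 : (0 : ℝ) ≤ (D : ℝ) := by rw [← hH]; exact hS.le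
      rw [abs_of_nonneg (by positivity)] at hb
      rw [hH] at hb ⊢
      have h8 : (0 : ℝ) ≤ (D : ℝ) ^ 7 := by positivity
      nlinarith
    · have hH : Hq s = |(A : ℝ)| := by
        unfold Hq
        rw [max_eq_left hle, hA]
      have r1 : (19683 : ℝ) * (A : ℝ) ^ 7 = (19456 * (D : ℝ) ^ 3 + 58496 * ((A : ℝ) * D ^ 2) + 58696 * ((A : ℝ) ^ 2 * D) + 19683 * (A : ℝ) ^ 3) *
          N + (0 * (D : ℝ) ^ 3 + 155648 * ((A : ℝ) * D ^ 2) + (-57344) * ((A : ℝ) ^ 2 * D) + 6464 * (A : ℝ) ^ 3) * E := by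
        rw [hN, hE]
        push_cast
        ring
      have hb := hcomb _ _ ((hlin 19456 58496 58696 19683).trans (by norm_num [abs_of_nonneg]; nlinarith))
        ((hlin 0 155648 (-57344) 6464).trans (by norm_num [abs_of_nonneg]; nlinarith))
      rw [← r1, abs_mul, abs_pow, ← hH, abs_of_nonneg (by norm_num : (0 : ℝ) ≤ 19683)] at hb
      have h8 : (0 : ℝ) ≤ Hq s ^ 7 := by positivity
      nlinarith
  have h9 : Hq s ^ 4 * Hq s ^ 3 ≤ (400000 * m) * Hq s ^ 3 := by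
    calc Hq s ^ 4 * Hq s ^ 3 = Hq s ^ 7 := by ring
      _ ≤ _ := key
      _ = _ := by ring
  have h10 := le_of_mul_le_mul_right h9 (by positivity)
  rw [hm] at h10
  nlinarith

lemma ht3 : Hts 3 R3 := by
  refine ⟨1000 * (27 * 6912), by norm_num, ?_⟩
  rintro s t ⟨hs, hst⟩
  have hsd : (s.den : ℤ) ≠ 0 := by exact_mod_cast s.den_ne_zero
  have htd : (t.den : ℤ) ≠ 0 := by exact_mod_cast t.den_ne_zero
  obtain ⟨A, hA⟩ : ∃ A : ℤ, A = s.num := ⟨_, rfl⟩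
  obtain ⟨D, hD⟩ : ∃ D : ℤ, D = s.den := ⟨_, rfl⟩
  obtain ⟨p, hp⟩ : ∃ p : ℤ, p = t.num := ⟨_, rfl⟩
  obtain ⟨q, hq⟩ : ∃ q : ℤ, q = t.den := ⟨_, rfl⟩
  have hD0 : D ≠ 0 := by rw [hD]; exact hsd
  have hq0 : q ≠ 0 := by rw [hq]; exact htd
  have hD0' : (D : ℚ) ≠ 0 := by exact_mod_cast hD0
  have hq0' : (q : ℚ) ≠ 0 := by exact_mod_cast hq0
  have es : s = A / D := by rw [hA, hD]; exact_mod_cast (Rat.num_div_den s).symm
  have et : t = p / q := by rw [hp, hq]; exact_mod_cast (Rat.num_div_den t).symm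
  have e : p * (27 * A ^ 2 * D) = q * (-(A + 4 * D) ^ 3) := by
    rw [es, et] at hst
    field_simp at hst
    have h : (p : ℚ) * (27 * A ^ 2 * D) = q * (-(A + 4 * D) ^ 3) := by
      linear_combination hst
    exact_mod_cast h
  have hAD : IsCoprime A D := by rw [hA, hD]; exact coprime_num_den s
  have hpq : IsCoprime p q := by rw [hp, hq]; exact coprime_num_den t
  have h1 : 27 * A ^ 5 = (-27 * A ^ 2) * (-(A + 4 * D) ^ 3) + (-64 * D ^ 2 - 48 * A * D - 12 * A ^ 2) *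
      (27 * A ^ 2 * D) := by ring
  have h2 : 6912 * D ^ 5 = (-108 * D ^ 2 + 81 * A * D) * (-(A + 4 * D) ^ 3) +
      (96 * D ^ 2 + 32 * A * D + 3 * A ^ 2) * (27 * A ^ 2 * D) := by ring
  obtain ⟨b1, b2⟩ := low 5 A D _ _ p q 27 6912 (by norm_num) (by norm_num) hAD hpq hq0 e _ _ _ _ h1 h2
  obtain ⟨N, hN⟩ : ∃ N : ℝ, N = ((-(A + 4 * D) ^ 3 : ℤ) : ℝ) := ⟨_, rfl⟩
  obtain ⟨E, hE⟩ : ∃ E : ℝ, E = ((27 * A ^ 2 * D : ℤ) : ℝ) := ⟨_, rfl⟩
  rw [← hN] at b1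
  rw [← hE] at b2
  have hpH : |(p : ℝ)| ≤ Hq t := by rw [hp]; exact num_le t
  have hqH : |(q : ℝ)| ≤ Hq t := by
    rw [hq]
    have := den_le t
    rw [abs_of_nonneg (by positivity)]
    exact_mod_cast this
  have hAH : |(A : ℝ)| ≤ Hq s := by rw [hA]; exact num_le s
  have hDH : |(D : ℝ)| ≤ Hq s := by
    rw [hD]
    have := den_le s
    rw [abs_of_nonneg (by positivity)]
    exact_mod_cast this
  have hcc : |((27 : ℤ) * (6912 : ℤ) : ℝ)| = 27 * 6912 := by norm_num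
  rw [hcc] at b1 b2
  have hT : 0 < Hq t := Hq_pos t
  have hS : 0 < Hq s := Hq_pos s
  obtain ⟨m, hm⟩ : ∃ m : ℝ, m = (27 * 6912 : ℝ) * Hq t := ⟨_, rfl⟩
  have hm0 : 0 ≤ m := by rw [hm]; positivity
  have hNm : |N| ≤ m := by rw [hm]; exact b1.trans (mul_le_mul_of_nonneg_left hpH (by norm_num))
  have hEm : |E| ≤ m := by rw [hm]; exact b2.trans (mul_le_mul_of_nonneg_left hqH (by norm_num))
  have m20 : |(D : ℝ) ^ 2| ≤ Hq s ^ 2 := by rw [abs_pow]; exact pow_le_pow_left₀ (abs_nonneg _) hDH 2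
  have m02 : |(A : ℝ) ^ 2| ≤ Hq s ^ 2 := by rw [abs_pow]; exact pow_le_pow_left₀ (abs_nonneg _) hAH 2
  have m11 : |(A : ℝ) * D| ≤ Hq s ^ 2 := by
    rw [abs_mul]
    calc |(A : ℝ)| * |(D : ℝ)| ≤ Hq s * Hq s := mul_le_mul hAH hDH (by positivity) hS.le
      _ = _ := by ring
  have hlin : ∀ a b c : ℝ, |a * (D : ℝ) ^ 2 + b * ((A : ℝ) * D) + c * (A : ℝ) ^ 2| ≤
      (|a| + |b| + |c|) * Hq s ^ 2 := by
    intro a b c
    have t1 : |a * (D : ℝ) ^ 2| ≤ |a| * Hq s ^ 2 := by rw [abs_mul]; exact mul_le_mul_of_nonneg_left m20 (abs_nonneg _)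
    have t2 : |b * ((A : ℝ) * D)| ≤ |b| * Hq s ^ 2 := by rw [abs_mul]; exact mul_le_mul_of_nonneg_left m11 (abs_nonneg _)
    have t3 : |c * (A : ℝ) ^ 2| ≤ |c| * Hq s ^ 2 := by rw [abs_mul]; exact mul_le_mul_of_nonneg_left m02 (abs_nonneg _)
    refine (abs_add_le _ _).trans ?_
    refine (add_le_add (abs_add_le _ _) le_rfl).trans ?_
    linarith
  have hcomb : ∀ u v : ℝ, |u| ≤ 200 * Hq s ^ 2 → |v| ≤ 200 * Hq s ^ 2 → |u * N + v * E| ≤ 400 * Hq s ^ 2 * m := by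
    intro u v hu hv
    refine (abs_add_le _ _).trans ?_
    rw [abs_mul, abs_mul]
    have h3 : 0 ≤ Hq s ^ 2 := by positivity
    calc |u| * |N| + |v| * |E| ≤ (200 * Hq s ^ 2) * m + (200 * Hq s ^ 2) * m :=
          add_le_add (mul_le_mul hu hNm (abs_nonneg _) (by positivity)) (mul_le_mul hv hEm (abs_nonneg _) (by positivity))
      _ = _ := by ring
  have key : Hq s ^ 5 ≤ 400 * Hq s ^ 2 * m := by
    have h3 : 0 ≤ Hq s ^ 2 := by positivity
    rcases le_total |(s.num : ℝ)| (s.den : ℝ) with hle | hle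
    · have hH : Hq s = D := by
        unfold Hq
        rw [max_eq_right hle, hD]
        norm_num
      have r2 : (6912 : ℝ) * (D : ℝ) ^ 5 = ((-108) * (D : ℝ) ^ 2 + 81 * ((A : ℝ) * D) + 0 * (A : ℝ) ^ 2) *
          N + (96 * (D : ℝ) ^ 2 + 32 * ((A : ℝ) * D) + 3 * (A : ℝ) ^ 2) * E := by
        rw [hN, hE]
        push_cast
        ring
      have hb := hcomb _ _ ((hlin (-108) 81 0).trans (by norm_num [abs_of_nonneg]; nlinarith))
        ((hlin 96 32 3).trans (by norm_num [abs_of_nonneg]; nlinarith))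
      rw [← r2] at hb
      have hD0 : (0 : ℝ) ≤ (D : ℝ) := by rw [← hH]; exact hS.le
      rw [abs_of_nonneg (by positivity)] at hb
      rw [hH] at hb ⊢
      have h8 : (0 : ℝ) ≤ (D : ℝ) ^ 5 := by positivity
      nlinarith
    · have hH : Hq s = |(A : ℝ)| := by
        unfold Hq
        rw [max_eq_left hle, hA]
      have r1 : (27 : ℝ) * (A : ℝ) ^ 5 = (0 * (D : ℝ) ^ 2 + 0 * ((A : ℝ) * D) + (-27) * (A : ℝ) ^ 2) *
          N + ((-64) * (D : ℝ) ^ 2 + (-48) * ((A : ℝ) * D) + (-12) * (A : ℝ) ^ 2) * E := by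
        rw [hN, hE]
        push_cast
        ring
      have hb := hcomb _ _ ((hlin 0 0 (-27)).trans (by norm_num [abs_of_nonneg]; nlinarith))
        ((hlin (-64) (-48) (-12)).trans (by norm_num [abs_of_nonneg]; nlinarith))
      rw [← r1, abs_mul, abs_pow, ← hH, abs_of_nonneg (by norm_num : (0 : ℝ) ≤ 27)] at hb
      have h8 : (0 : ℝ) ≤ Hq s ^ 5 := by positivity
      nlinarith
  have h9 : Hq s ^ 3 * Hq s ^ 2 ≤ (400 * m) * Hq s ^ 2 := by
    calc Hq s ^ 3 * Hq s ^ 2 = Hq s ^ 5 := by ring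
      _ ≤ _ := key
      _ = _ := by ring
  have h10 := le_of_mul_le_mul_right h9 (by positivity)
  rw [hm] at h10
  nlinarith

lemma hts_comp {n m : ℕ} {R S : ℚ → ℚ → Prop} (hR : Hts n R) (hS : Hts m S) :
    Hts (n * m) (fun s u => ∃ t, R s t ∧ S t u) := by
  obtain ⟨C, hC, h1⟩ := hR
  obtain ⟨C', hC', h2⟩ := hS
  refine ⟨C ^ m * C', by positivity, ?_⟩
  rintro s u ⟨t, hst, htu⟩
  have := (Hq_pos t).le
  have := (Hq_pos s).le
  calc Hq s ^ (n * m) = (Hq s ^ n) ^ m := pow_mul _ _ _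
    _ ≤ (C * Hq t) ^ m := pow_le_pow_left₀ (by positivity) (h1 s t hst) m
    _ = C ^ m * Hq t ^ m := mul_pow _ _ _
    _ ≤ C ^ m * (C' * Hq u) := mul_le_mul_of_nonneg_left (h2 t u htu) (by positivity)
    _ = _ := by ring

lemma hts_id : Hts 1 (fun s t => t = s) := ⟨1, one_pos, fun s t h => by rw [h]; simp⟩

end Pool.Agent.T9h58.Hall
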