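import Pool.Agent.T9h58.Hall.Step
import Pool.Agent.T9h58.Hall.Ht
import Pool.Agent.W472.AC.RothThm

/-! # The theorem of Roth and the proximity of the images to infinity -/

set_option autoImplicit false

namespace Pool.Agent.T9h58.Hall

open Finset

/-- Liouville and Roth for one complex algebraic number -/
lemma approx (θ : ℂ) (hθ : IsAlgebraic ℚ θ) (ε : ℝ) (hε : 0 < ε) :
    ∃ c : ℝ, 0 < c ∧ ∀ s : ℚ, (s : ℂ) ≠ θ → c ≤ ‖(s : ℂ) - θ‖ * Hq s ^ (2 + ε) := by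
  have hpow1 : ∀ s : ℚ, 1 ≤ Hq s ^ (2 + ε) := fun s => Real.one_le_rpow (one_le_Hq s) (by linarith)
  by_cases him : θ.im = 0
  · obtain ⟨r, hr⟩ : ∃ r : ℝ, (r : ℂ) = θ := ⟨θ.re, by
      apply Complex.ext
      · simp
      · simp [him]⟩
    have hnorm : ∀ s : ℚ, ‖(s : ℂ) - θ‖ = |(s : ℝ) - r| := fun s => by
      have : (s : ℂ) - θ = (((s : ℝ) - r : ℝ) : ℂ) := by rw [← hr]; push_cast; ring
      rw [this, Complex.norm_real, Real.norm_eq_abs]
    by_cases hirr : Irrational r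
    · have halg : IsAlgebraic ℚ r := by
        rw [← hr] at hθ
        exact (isAlgebraic_algebraMap_iff (algebraMap ℝ ℂ).injective).1 hθ
      obtain ⟨c, hc, h⟩ := Pool.Agent.W472.AC.roth r halg hirr ε hε
      refine ⟨c, hc, fun s _ => ?_⟩
      have h1 := h s.den s.pos s.num
      have hd1 := one_le_den s
      have hd0 : (0 : ℝ) < s.den := by linarith
      rw [hnorm, cast_eq]
      have e1 : |(s.num : ℝ) / s.den - r| = |(s.den : ℝ) * r - s.num| / s.den := by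
        rw [show (s.num : ℝ) / s.den - r = -((s.den : ℝ) * r - s.num) / s.den by field_simp; ring, abs_div, abs_neg,
          abs_of_pos hd0]
      rw [e1]
      have e2 : (s.den : ℝ) ^ (2 + ε) = s.den * (s.den : ℝ) ^ (1 + ε) := by
        rw [show (2 + ε) = 1 + (1 + ε) by ring, Real.rpow_add hd0, Real.rpow_one]
      calc c ≤ (s.den : ℝ) ^ (1 + ε) * |(s.den : ℝ) * r - s.num| := h1
        _ = |(s.den : ℝ) * r - s.num| / s.den * (s.den * (s.den : ℝ) ^ (1 + ε)) := by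
            field_simp
        _ = |(s.den : ℝ) * r - s.num| / s.den * (s.den : ℝ) ^ (2 + ε) := by rw [e2]
        _ ≤ _ := by
            refine mul_le_mul_of_nonneg_left ?_ (by positivity)
            exact Real.rpow_le_rpow hd0.le (den_le s) (by linarith)
    · rw [Irrational, not_not] at hirr
      obtain ⟨r₀, hr₀⟩ := hirr
      have hd00 : (0 : ℝ) < r₀.den := by exact_mod_cast r₀.pos
      refine ⟨1 / r₀.den, by positivity, fun s hs => ?_⟩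
      have hne : s ≠ r₀ := by
        rintro rfl
        apply hs
        rw [← hr, ← hr₀]
        push_cast
        rfl
      have hd0 : (0 : ℝ) < s.den := by exact_mod_cast s.pos
      rw [hnorm, ← hr₀]
      have h1 : s.num * (r₀.den : ℤ) - r₀.num * (s.den : ℤ) ≠ 0 := by
        intro h
        apply hne
        rw [sub_eq_zero] at h
        exact Rat.eq_iff_mul_eq_mul.2 h
      have h2 : (1 : ℝ) ≤ |(s.num : ℝ) * r₀.den - r₀.num * s.den| := by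
        have : (1 : ℤ) ≤ |s.num * (r₀.den : ℤ) - r₀.num * (s.den : ℤ)| := Int.one_le_abs h1
        exact_mod_cast this
      have e1 : |(s : ℝ) - r₀| = |(s.num : ℝ) * r₀.den - r₀.num * s.den| / (s.den * r₀.den) := by
        rw [cast_eq s, cast_eq r₀, div_sub_div _ _ hd0.ne' hd00.ne', abs_div, abs_of_pos (mul_pos hd0 hd00)]
        congr 2
        ring
      rw [e1]
      have h3 : (s.den : ℝ) ≤ Hq s ^ (2 + ε) := by
        refine (den_le s).trans ?_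
        conv_lhs => rw [← Real.rpow_one (Hq s)]
        exact Real.rpow_le_rpow_of_exponent_le (one_le_Hq s) (by linarith)
      rw [div_mul_eq_mul_div, div_le_div_iff₀ hd00 (by positivity)]
      have h5 : (s.den : ℝ) ≤ |(s.num : ℝ) * r₀.den - r₀.num * s.den| * Hq s ^ (2 + ε) := by
        have := hpow1 s
        nlinarith
      nlinarith
  · refine ⟨|θ.im|, abs_pos.2 him, fun s _ => ?_⟩
    have h1 : |θ.im| ≤ ‖(s : ℂ) - θ‖ := by
      have := Complex.abs_im_le_norm ((s : ℂ) - θ)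
      simpa using this
    have h2 := hpow1 s
    have h3 := norm_nonneg ((s : ℂ) - θ)
    nlinarith

/-- the product over a finite set of algebraic numbers -/
lemma prod_bound (Z : Finset ℂ) (hZ : ∀ z ∈ Z, IsAlgebraic ℚ z) (ε : ℝ) (hε : 0 < ε) :
    ∃ C : ℝ, 0 < C ∧ ∀ s : ℚ, (∀ z ∈ Z, (s : ℂ) ≠ z) →
      M s * ∏ z ∈ Z, (M s / ‖(s : ℂ) - z‖) ^ 6 ≤ C * Hq s ^ (12 + 6 * ε) := by
  classical
  have hap : ∀ z ∈ Z, ∃ c : ℝ, 0 < c ∧ ∀ s : ℚ, (s : ℂ) ≠ z → c ≤ ‖(s : ℂ) - z‖ * Hq s ^ (2 + ε) :=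
    fun z hz => approx z (hZ z hz) ε hε
  choose! c hc0 hc using hap
  obtain ⟨K, hK⟩ : ∃ K : ℝ, K = 1 + ∑ z ∈ Z, ∑ w ∈ Z, 1 / ‖z - w‖ := ⟨_, rfl⟩
  have hK1 : 1 ≤ K := by
    rw [hK]
    have : 0 ≤ ∑ z ∈ Z, ∑ w ∈ Z, 1 / ‖z - w‖ := sum_nonneg fun _ _ => sum_nonneg fun _ _ => by positivity
    linarith
  have hsep : ∀ z ∈ Z, ∀ w ∈ Z, z ≠ w → 1 / K ≤ ‖z - w‖ := fun z hz w hw hne => by
    have h0 : 0 < ‖z - w‖ := norm_pos_iff.2 (sub_ne_zero.2 hne)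
    have h1 : 1 / ‖z - w‖ ≤ K := by
      rw [hK]
      have h2 : 1 / ‖z - w‖ ≤ ∑ w ∈ Z, 1 / ‖z - w‖ :=
        single_le_sum (f := fun w => 1 / ‖z - w‖) (fun _ _ => by positivity) hw
      have h3 : ∑ w ∈ Z, 1 / ‖z - w‖ ≤ ∑ z ∈ Z, ∑ w ∈ Z, 1 / ‖z - w‖ :=
        single_le_sum (f := fun z => ∑ w ∈ Z, 1 / ‖z - w‖) (fun _ _ => sum_nonneg fun _ _ => by positivity) hz
      linarith
    rw [div_le_iff₀ (by linarith)]
    rw [div_le_iff₀ h0] at h1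
    linarith
  obtain ⟨δ, hδ⟩ : ∃ δ : ℝ, δ = 1 / (2 * K) := ⟨_, rfl⟩
  have hδ0 : 0 < δ := by rw [hδ]; positivity
  have hδ1 : δ ≤ 1 := by
    rw [hδ, div_le_one (by positivity)]
    linarith
  have h2δ : 1 / K = 2 * δ := by rw [hδ]; field_simp
  obtain ⟨B₀, hB₀⟩ : ∃ B₀ : ℝ, B₀ = 1 + ∑ z ∈ Z, ‖z‖ := ⟨_, rfl⟩
  have hzB : ∀ z ∈ Z, 1 + ‖z‖ ≤ B₀ := fun z hz => by
    rw [hB₀]
    have := single_le_sum (f := fun z : ℂ => ‖z‖) (fun _ _ => norm_nonneg _) hz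
    linarith
  have hB₀1 : 1 ≤ B₀ := by
    rw [hB₀]
    have : 0 ≤ ∑ z ∈ Z, ‖z‖ := sum_nonneg fun _ _ => norm_nonneg _
    linarith
  obtain ⟨B, hB⟩ : ∃ B : ℝ, B = B₀ / δ + 1 := ⟨_, rfl⟩
  have hB1 : 1 ≤ B := by
    rw [hB]
    have : 0 ≤ B₀ / δ := by positivity
    linarith
  have hMs : ∀ (s : ℚ) (z : ℂ), M s ≤ 1 + ‖z‖ + ‖(s : ℂ) - z‖ := fun s z => by
    unfold M
    have h1 : |(s : ℝ)| ≤ ‖z‖ + ‖(s : ℂ) - z‖ := by
      rw [← cast_abs]
      calc ‖(s : ℂ)‖ = ‖z + ((s : ℂ) - z)‖ := by congr 1; ring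
        _ ≤ _ := norm_add_le _ _
    refine max_le ?_ (by linarith)
    have := norm_nonneg z
    have := norm_nonneg ((s : ℂ) - z)
    linarith
  have hfar : ∀ (s : ℚ) (z : ℂ), z ∈ Z → δ ≤ ‖(s : ℂ) - z‖ → M s / ‖(s : ℂ) - z‖ ≤ B := fun s z hz hd => by
    have h0 : 0 < ‖(s : ℂ) - z‖ := lt_of_lt_of_le hδ0 hd
    rw [div_le_iff₀ h0, hB]
    have h1 := hMs s z
    have h2 := hzB z hz
    have h3 : B₀ ≤ B₀ / δ * ‖(s : ℂ) - z‖ := by
      rw [div_mul_eq_mul_div, le_div_iff₀ hδ0]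
      exact mul_le_mul_of_nonneg_left hd (by linarith)
    nlinarith
  obtain ⟨L, hL⟩ : ∃ L : ℝ, L = ∑ z ∈ Z, 1 / c z := ⟨_, rfl⟩
  have hLz : ∀ z ∈ Z, 1 / c z ≤ L := fun z hz => by
    rw [hL]
    exact single_le_sum (f := fun z => 1 / c z) (fun w hw => by have := hc0 w hw; positivity) hz
  have hL0 : 0 ≤ L := by
    rw [hL]
    exact sum_nonneg fun w hw => by have := hc0 w hw; positivity
  refine ⟨B ^ (6 * Z.card) * (1 + (B₀ + 1) * ((B₀ + 1) * L) ^ 6), by positivity, fun s hs => ?_⟩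
  have hM1 := one_le_M s
  have hH1 := one_le_Hq s
  have hHp : 1 ≤ Hq s ^ (12 + 6 * ε) := Real.one_le_rpow hH1 (by linarith)
  have hMH : M s ≤ Hq s ^ (12 + 6 * ε) := by
    refine (M_le_Hq s).trans ?_
    conv_lhs => rw [← Real.rpow_one (Hq s)]
    exact Real.rpow_le_rpow_of_exponent_le hH1 (by linarith)
  by_cases hall : ∀ z ∈ Z, δ ≤ ‖(s : ℂ) - z‖
  · have h1 : ∏ z ∈ Z, (M s / ‖(s : ℂ) - z‖) ^ 6 ≤ B ^ (6 * Z.card) := by
      calc ∏ z ∈ Z, (M s / ‖(s : ℂ) - z‖) ^ 6 ≤ ∏ z ∈ Z, B ^ 6 :=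
            prod_le_prod (fun z hz => by positivity) (fun z hz => pow_le_pow_left₀ (by positivity) (hfar s z hz (hall z hz)) 6)
        _ = _ := by rw [prod_const, ← pow_mul]
    calc M s * ∏ z ∈ Z, (M s / ‖(s : ℂ) - z‖) ^ 6 ≤ Hq s ^ (12 + 6 * ε) * B ^ (6 * Z.card) :=
          mul_le_mul hMH h1 (prod_nonneg fun _ _ => by positivity) (by positivity)
      _ ≤ _ := by
          have h5 : 0 ≤ B ^ (6 * Z.card) := by positivity
          have h6 : 0 ≤ (B₀ + 1) * ((B₀ + 1) * L) ^ 6 := by positivity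
          have h7 : 0 ≤ Hq s ^ (12 + 6 * ε) := by positivity
          nlinarith [mul_nonneg (mul_nonneg h5 h6) h7]
  · push Not at hall
    obtain ⟨z₀, hz₀, hlt⟩ := hall
    have hMb : M s ≤ B₀ + 1 := by
      have := hMs s z₀
      have := hzB z₀ hz₀
      linarith
    have hother : ∀ z ∈ Z.erase z₀, δ ≤ ‖(s : ℂ) - z‖ := fun z hz => by
      rw [mem_erase] at hz
      have h1 := hsep z₀ hz₀ z hz.2 (Ne.symm hz.1)
      rw [h2δ] at h1
      have h2 : ‖z₀ - z‖ ≤ ‖(s : ℂ) - z‖ + ‖(s : ℂ) - z₀‖ := by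
        calc ‖z₀ - z‖ = ‖((s : ℂ) - z) - ((s : ℂ) - z₀)‖ := by congr 1; ring
          _ ≤ _ := norm_sub_le _ _
      linarith
    have h1 : ∏ z ∈ Z.erase z₀, (M s / ‖(s : ℂ) - z‖) ^ 6 ≤ B ^ (6 * Z.card) := by
      calc ∏ z ∈ Z.erase z₀, (M s / ‖(s : ℂ) - z‖) ^ 6 ≤ ∏ z ∈ Z.erase z₀, B ^ 6 :=
            prod_le_prod (fun z hz => by positivity)
              (fun z hz => pow_le_pow_left₀ (by positivity) (hfar s z (mem_of_mem_erase hz) (hother z hz)) 6)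
        _ = B ^ (6 * (Z.erase z₀).card) := by rw [prod_const, ← pow_mul]
        _ ≤ _ := pow_le_pow_right₀ hB1 (Nat.mul_le_mul_left 6 (card_erase_le))
    have hn0 : 0 < ‖(s : ℂ) - z₀‖ := norm_pos_iff.2 (sub_ne_zero.2 (hs z₀ hz₀))
    have h2 : M s / ‖(s : ℂ) - z₀‖ ≤ (B₀ + 1) * L * Hq s ^ (2 + ε) := by
      have h3 := hc z₀ hz₀ s (hs z₀ hz₀)
      have h4 := hc0 z₀ hz₀
      have h5 := hLz z₀ hz₀
      rw [div_le_iff₀ hn0]
      have h6 : 1 ≤ (1 / c z₀) * (‖(s : ℂ) - z₀‖ * Hq s ^ (2 + ε)) := by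
        rw [one_div, inv_mul_eq_div, le_div_iff₀ h4, one_mul]
        exact h3
      have h7 : (1 / c z₀) * (‖(s : ℂ) - z₀‖ * Hq s ^ (2 + ε)) ≤ L * (‖(s : ℂ) - z₀‖ * Hq s ^ (2 + ε)) :=
        mul_le_mul_of_nonneg_right h5 (by positivity)
      calc M s ≤ (B₀ + 1) * 1 := by linarith
        _ ≤ (B₀ + 1) * (L * (‖(s : ℂ) - z₀‖ * Hq s ^ (2 + ε))) :=
            mul_le_mul_of_nonneg_left (h6.trans h7) (by linarith)
        _ = _ := by ring
    rw [← mul_prod_erase Z _ hz₀]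
    calc M s * ((M s / ‖(s : ℂ) - z₀‖) ^ 6 * ∏ z ∈ Z.erase z₀, (M s / ‖(s : ℂ) - z‖) ^ 6)
        ≤ (B₀ + 1) * (((B₀ + 1) * L * Hq s ^ (2 + ε)) ^ 6 * B ^ (6 * Z.card)) := by
          refine mul_le_mul hMb ?_ (by positivity) (by linarith)
          exact mul_le_mul (pow_le_pow_left₀ (by positivity) h2 6) h1 (by positivity) (by positivity)
      _ = B ^ (6 * Z.card) * ((B₀ + 1) * ((B₀ + 1) * L) ^ 6) * (Hq s ^ (2 + ε)) ^ 6 := by ring
      _ = B ^ (6 * Z.card) * ((B₀ + 1) * ((B₀ + 1) * L) ^ 6) * Hq s ^ (12 + 6 * ε) := by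
          rw [← Real.rpow_mul_natCast (Hq_pos s).le, show (2 + ε) * ((6 : ℕ) : ℝ) = 12 + 6 * ε by push_cast; ring]
      _ ≤ _ := by
          refine mul_le_mul_of_nonneg_right ?_ (by positivity)
          have h5 : 0 ≤ B ^ (6 * Z.card) := by positivity
          nlinarith

/-- a relation which is a partial function -/
def Fun (R : ℚ → ℚ → Prop) : Prop := ∀ s t t', R s t → R s t' → t = t'

/-- the proximity to infinity is at most `12 + ε` times the height -/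
theorem prox_bound {R : ℚ → ℚ → Prop} (h : Prox R) (hf : Fun R) (ε : ℝ) (hε : 0 < ε) :
    ∃ C : ℝ, 0 < C ∧ ∀ s t, R s t → |(t : ℝ)| ≤ C * Hq s ^ (12 + ε) := by
  classical
  obtain ⟨Z, hZ, h0, h1, C₀, hC⟩ := h
  have hne1 : (0 : ℂ) ∉ insert (-1 : ℂ) Z := by
    rw [mem_insert]
    rintro (h | h)
    · norm_num at h
    · exact h0 h
  obtain ⟨C₁, hC₁, hP⟩ := prod_bound (insert 0 (insert (-1) Z)) (by
    intro z hz
    rw [mem_insert, mem_insert] at hz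
    rcases hz with rfl | rfl | hz
    · exact isAlgebraic_zero
    · exact isAlgebraic_one.neg
    · exact hZ z hz) (ε / 6) (by positivity)
  obtain ⟨g, hg⟩ : ∃ g : ℂ → ℝ, ∀ z, 0 ≤ g z ∧ ∀ s t : ℚ, (s : ℂ) = z → R s t → |(t : ℝ)| ≤ g z := by
    have : ∀ z : ℂ, ∃ y : ℝ, 0 ≤ y ∧ ∀ s t : ℚ, (s : ℂ) = z → R s t → |(t : ℝ)| ≤ y := fun z => by
      by_cases hz : ∃ s t : ℚ, (s : ℂ) = z ∧ R s t
      · obtain ⟨s, t, hs, ht⟩ := hz
        refine ⟨|(t : ℝ)|, abs_nonneg _, fun s' t' hs' ht' => ?_⟩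
        have e : s' = s := by
          have : (s' : ℂ) = (s : ℂ) := hs'.trans hs.symm
          exact_mod_cast this
        rw [e] at ht'
        rw [hf s t' t ht' ht]
      · refine ⟨0, le_rfl, fun s t hs ht => ?_⟩
        exact absurd ⟨s, t, hs, ht⟩ hz
    choose g hg using this
    exact ⟨g, hg⟩
  obtain ⟨G, hG⟩ : ∃ G : ℝ, G = ∑ z ∈ insert (0 : ℂ) (insert (-1) Z), g z := ⟨_, rfl⟩
  have hG0 : 0 ≤ G := by rw [hG]; exact sum_nonneg fun z _ => (hg z).1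
  refine ⟨8 * |C₀| * C₁ + G + 1, by positivity, fun s t hst => ?_⟩
  have hHp : 1 ≤ Hq s ^ (12 + ε) := Real.one_le_rpow (one_le_Hq s) (by linarith)
  have hA0 : 0 ≤ 8 * |C₀| * C₁ := by positivity
  by_cases hs : ∃ z ∈ insert (0 : ℂ) (insert (-1) Z), (s : ℂ) = z
  · obtain ⟨z, hz, he⟩ := hs
    have h2 := (hg z).2 s t he hst
    have h3 : g z ≤ G := by
      rw [hG]
      exact single_le_sum (f := g) (fun w _ => (hg w).1) hz
    nlinarith
  · push Not at hs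
    have hI := hC s t hst
    have hp := hP s hs
    rw [prod_insert hne1, prod_insert h1] at hp
    have hs0 : 0 < |(s : ℝ)| := by
      have := hs 0 (mem_insert_self _ _)
      rw [abs_pos]
      exact_mod_cast this
    have hs1 : 0 < |(s : ℝ) + 1| := by
      have := hs (-1) (mem_insert_of_mem (mem_insert_self _ _))
      rw [abs_pos]
      intro h
      apply this
      have h' : (s : ℝ) = -1 := by linarith
      have : s = -1 := by exact_mod_cast h'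
      rw [this]
      norm_num
    have hn0 : ‖(s : ℂ) - 0‖ = |(s : ℝ)| := by rw [sub_zero, cast_abs]
    have hn1 : ‖(s : ℂ) - (-1)‖ = |(s : ℝ) + 1| := by
      have : (s : ℂ) - (-1) = (((s : ℝ) + 1 : ℝ) : ℂ) := by push_cast; ring
      rw [this, Complex.norm_real, Real.norm_eq_abs]
    rw [hn0, hn1] at hp
    have hM := M_pos s
    have hM1 := one_le_M s
    have hsM := abs_le_M s
    obtain ⟨a, ha⟩ : ∃ a : ℝ, a = M s / |(s : ℝ)| := ⟨_, rfl⟩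
    obtain ⟨b, hb⟩ : ∃ b : ℝ, b = M s / |(s : ℝ) + 1| := ⟨_, rfl⟩
    rw [← ha, ← hb] at hp
    have ha1 : 1 ≤ a := by rw [ha, le_div_iff₀ hs0]; linarith
    have hb1 : 1 / 2 ≤ b := by
      rw [hb, le_div_iff₀ hs1]
      have : |(s : ℝ) + 1| ≤ |(s : ℝ)| + 1 := by
        refine (abs_add_le _ _).trans ?_
        rw [abs_one]
      linarith
    have ha6 : a ^ 2 ≤ a ^ 6 := pow_le_pow_right₀ ha1 (by norm_num)
    have hb6 : b ^ 3 ≤ 8 * b ^ 6 := by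
      have h3 : (1 / 2 : ℝ) ^ 3 ≤ b ^ 3 := pow_le_pow_left₀ (by norm_num) hb1 3
      have h4 : 0 ≤ b ^ 3 := by positivity
      nlinarith
    have hXpos : ∀ z ∈ Z, 0 < ‖(s : ℂ) - z‖ := fun z hz =>
      norm_pos_iff.2 (sub_ne_zero.2 (hs z (mem_insert_of_mem (mem_insert_of_mem hz))))
    obtain ⟨X, hX⟩ : ∃ X : ℝ, X = ∏ z ∈ Z, ‖(s : ℂ) - z‖ ^ 6 := ⟨_, rfl⟩
    have hX0 : 0 < X := by rw [hX]; exact prod_pos fun z hz => by have := hXpos z hz; positivity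
    obtain ⟨Y, hY⟩ : ∃ Y : ℝ, Y = ∏ z ∈ Z, (M s / ‖(s : ℂ) - z‖) ^ 6 := ⟨_, rfl⟩
    have hYX : Y * X = M s ^ (6 * Z.card) := by
      rw [hY, hX, ← prod_mul_distrib]
      have : ∀ z ∈ Z, (M s / ‖(s : ℂ) - z‖) ^ 6 * ‖(s : ℂ) - z‖ ^ 6 = M s ^ 6 := fun z hz => by
        have := hXpos z hz
        rw [← mul_pow]
        congr 1
        field_simp
      rw [prod_congr rfl this, prod_const, ← pow_mul]
    have hY0 : 0 ≤ Y := by rw [hY]; exact prod_nonneg fun _ _ => by positivity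
    rw [← hY] at hp
    rw [← hX] at hI
    have hE : M s ^ (6 * Z.card + 6) = (M s * a ^ 2 * b ^ 3 * Y) * (|(s : ℝ)| ^ 2 * |(s : ℝ) + 1| ^ 3 * X) := by
      calc M s ^ (6 * Z.card + 6) = M s ^ (6 * Z.card) * M s ^ 6 := pow_add _ _ _
        _ = (Y * X) * M s ^ 6 := by rw [hYX]
        _ = _ := by
          rw [ha, hb]
          field_simp
    have hD0 : 0 < |(s : ℝ)| ^ 2 * |(s : ℝ) + 1| ^ 3 * X := by positivity
    have h5 : |(t : ℝ)| * (|(s : ℝ)| ^ 2 * |(s : ℝ) + 1| ^ 3 * X) ≤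
        (|C₀| * (M s * a ^ 2 * b ^ 3 * Y)) * (|(s : ℝ)| ^ 2 * |(s : ℝ) + 1| ^ 3 * X) := by
      calc |(t : ℝ)| * (|(s : ℝ)| ^ 2 * |(s : ℝ) + 1| ^ 3 * X) = |(t : ℝ)| * |(s : ℝ)| ^ 2 * |(s : ℝ) + 1| ^ 3 * X := by ring
        _ ≤ C₀ * M s ^ (6 * Z.card + 6) := hI
        _ ≤ |C₀| * M s ^ (6 * Z.card + 6) := mul_le_mul_of_nonneg_right (le_abs_self _) (by positivity)
        _ = _ := by rw [hE]; ring
    have h6 := le_of_mul_le_mul_right h5 hD0
    have h7 : M s * a ^ 2 * b ^ 3 * Y ≤ 8 * (M s * (a ^ 6 * (b ^ 6 * Y))) := by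
      calc M s * a ^ 2 * b ^ 3 * Y = (M s * Y) * (a ^ 2 * b ^ 3) := by ring
        _ ≤ (M s * Y) * (a ^ 6 * (8 * b ^ 6)) := by
            refine mul_le_mul_of_nonneg_left ?_ (by positivity)
            exact mul_le_mul ha6 hb6 (by positivity) (by positivity)
        _ = _ := by ring
    have h8 : M s * (a ^ 6 * (b ^ 6 * Y)) ≤ C₁ * Hq s ^ (12 + ε) := by
      rw [show 12 + ε = 12 + 6 * (ε / 6) by ring]
      exact hp
    calc |(t : ℝ)| ≤ |C₀| * (M s * a ^ 2 * b ^ 3 * Y) := h6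
      _ ≤ |C₀| * (8 * (C₁ * Hq s ^ (12 + ε))) := by
          refine mul_le_mul_of_nonneg_left (h7.trans ?_) (abs_nonneg _)
          linarith
      _ = 8 * |C₀| * C₁ * Hq s ^ (12 + ε) := by ring
      _ ≤ _ := by nlinarith

end Pool.Agent.T9h58.Hall
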