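import Pool.Agent.T9h58.Hall.Pt
import Pool.Agent.T9h58.Hall.Rt

/-! # Bounds for the integral points in `n E(ℚ)` -/

set_option autoImplicit false

namespace Pool.Agent.T9h58.Hall

open WeierstrassCurve Finset

/-- the relation `R` records the multiplication by `n` on all the curves `y² = x³ + d` -/
def Tracks (n : ℕ) (R : ℚ → ℚ → Prop) : Prop :=
  ∀ d : ℤ, d ≠ 0 → ∀ (x₁ y₁ x y : ℚ) (h₁ : (curve d).Nonsingular x₁ y₁) (h : (curve d).Nonsingular x y),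
    n • Affine.Point.some x₁ y₁ h₁ = Affine.Point.some x y h → R (x₁ ^ 3 / d) (x ^ 3 / d)

/-- there is a good relation for `n` -/
def Good (n : ℕ) : Prop := ∃ R : ℚ → ℚ → Prop, Prox R ∧ Hts (n ^ 2) R ∧ Fun R ∧ Tracks n R

lemma fun2 : Fun R2 := by
  rintro s t t' ⟨h0, h1⟩ ⟨-, h2⟩
  have h3 : (64 * (s + 1) ^ 3 : ℚ) ≠ 0 := by positivity
  exact mul_right_cancel₀ h3 (h1.trans h2.symm)

lemma fun3 : Fun R3 := by
  rintro s t t' ⟨h0, h1⟩ ⟨-, h2⟩
  have h3 : (27 * s ^ 2 : ℚ) ≠ 0 := by positivity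
  exact mul_right_cancel₀ h3 (h1.trans h2.symm)

lemma fun_comp {R S : ℚ → ℚ → Prop} (hR : Fun R) (hS : Fun S) : Fun (fun s u => ∃ t, R s t ∧ S t u) := by
  rintro s u u' ⟨t, h1, h2⟩ ⟨t', h3, h4⟩
  have := hR s t t' h1 h3
  subst this
  exact hS _ _ _ h2 h4

lemma dbl_track {d : ℤ} (hd : d ≠ 0) {x₁ y₁ x y : ℚ} {h₁ : (curve d).Nonsingular x₁ y₁}
    {h : (curve d).Nonsingular x y}
    (e : 2 • Affine.Point.some x₁ y₁ h₁ = Affine.Point.some x y h) : R2 (x₁ ^ 3 / d) (x ^ 3 / d) := by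
  obtain ⟨h0, h1⟩ := dbl_x e
  have hd' : (d : ℚ) ≠ 0 := by exact_mod_cast hd
  refine ⟨?_, ?_⟩
  · intro h5
    apply h0
    field_simp at h5
    linarith
  · field_simp
    have h3 : (x * (4 * (x₁ ^ 3 + d))) ^ 3 = (x₁ * (x₁ ^ 3 - 8 * d)) ^ 3 := by rw [h1]
    linear_combination h3

lemma trp_track {d : ℤ} (hd : d ≠ 0) {x₁ y₁ x y : ℚ} {h₁ : (curve d).Nonsingular x₁ y₁}
    {h : (curve d).Nonsingular x y}
    (e : 3 • Affine.Point.some x₁ y₁ h₁ = Affine.Point.some x y h) :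
    ∃ t, R3 (x₁ ^ 3 / d) t ∧ R3 t (x ^ 3 / d) := by
  obtain ⟨h0, h4, h1⟩ := trp_x hd e
  have hd' : (d : ℚ) ≠ 0 := by exact_mod_cast hd
  refine ⟨-(x₁ ^ 3 / d + 4) ^ 3 / (27 * (x₁ ^ 3 / d) ^ 2), ⟨by positivity, by field_simp⟩, ?_, ?_⟩
  · have h5 : x₁ ^ 3 / d + 4 ≠ 0 := by
      intro h6
      apply h4
      field_simp at h6
      linarith
    have h7 : x₁ ^ 3 / d ≠ 0 := by positivity
    exact div_ne_zero (neg_ne_zero.2 (pow_ne_zero 3 h5)) (by positivity)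
  · have h3 : (x * (9 * x₁ ^ 2 * (x₁ ^ 3 + 4 * d) ^ 2)) ^ 3 =
        (x₁ ^ 9 - 96 * d * x₁ ^ 6 + 48 * d ^ 2 * x₁ ^ 3 + 64 * d ^ 3) ^ 3 := by rw [h1]
    field_simp
    linear_combination h3

theorem good_one : Good 1 := by
  refine ⟨fun s t => t = s, prox_id, by simpa using hts_id, ?_, ?_⟩
  · rintro s t t' rfl rfl
    rfl
  · intro d hd x₁ y₁ x y h₁ h e
    rw [one_nsmul, Affine.Point.some.injEq] at e
    rw [e.1]

theorem good_two {n : ℕ} (hn : Good n) : Good (2 * n) := by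
  obtain ⟨R, hP, hH, hF, hT⟩ := hn
  refine ⟨fun s u => ∃ t, R2 s t ∧ R t u, prox2 hP, ?_, fun_comp fun2 hF, ?_⟩
  · have := hts_comp ht2 hH
    rwa [show 4 * n ^ 2 = (2 * n) ^ 2 by ring] at this
  · intro d hd x₁ y₁ x y h₁ h e
    rw [mul_comm, mul_nsmul'] at e
    rcases e2 : 2 • Affine.Point.some x₁ y₁ h₁ with _ | ⟨x₂, y₂, h₂⟩
    · rw [e2] at e
      have h5 : n • (0 : (curve d).Point) = Affine.Point.some x y h := e
      rw [nsmul_zero] at h5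
      exact absurd h5.symm (Affine.Point.some_ne_zero _)
    · rw [e2] at e
      exact ⟨x₂ ^ 3 / d, dbl_track hd e2, hT d hd _ _ _ _ _ _ e⟩

theorem good_three {n : ℕ} (hn : Good n) : Good (3 * n) := by
  obtain ⟨R, hP, hH, hF, hT⟩ := hn
  refine ⟨fun s u => ∃ t, R3 s t ∧ ∃ t', R3 t t' ∧ R t' u, prox3 (prox3 hP), ?_,
    fun_comp fun3 (fun_comp fun3 hF), ?_⟩
  · have := hts_comp ht3 (hts_comp ht3 hH)
    rwa [show 3 * (3 * n ^ 2) = (3 * n) ^ 2 by ring] at this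
  · intro d hd x₁ y₁ x y h₁ h e
    rw [mul_comm, mul_nsmul'] at e
    rcases e2 : 3 • Affine.Point.some x₁ y₁ h₁ with _ | ⟨x₂, y₂, h₂⟩
    · rw [e2] at e
      have h5 : n • (0 : (curve d).Point) = Affine.Point.some x y h := e
      rw [nsmul_zero] at h5
      exact absurd h5.symm (Affine.Point.some_ne_zero _)
    · rw [e2] at e
      obtain ⟨t, h5, h6⟩ := trp_track hd e2
      exact ⟨t, h5, _, h6, hT d hd _ _ _ _ _ _ e⟩

theorem good_smooth (a b : ℕ) : Good (2 ^ a * 3 ^ b) := by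
  induction a with
  | zero =>
    induction b with
    | zero => simpa using good_one
    | succ b ih =>
      have := good_three ih
      rwa [show 3 * (2 ^ 0 * 3 ^ b) = 2 ^ 0 * 3 ^ (b + 1) by ring] at this
  | succ a ih =>
    have := good_two ih
    rwa [show 2 * (2 ^ a * 3 ^ b) = 2 ^ (a + 1) * 3 ^ b by ring] at this

/-- the extraction of the bound -/
theorem extract {R : ℚ → ℚ → Prop} {N : ℕ} (hH : Hts N R) {α C₁ : ℝ} (hα : 0 ≤ α) (hαN : α < N)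
    (hC₁ : 0 < C₁) (hb : ∀ s t, R s t → |(t : ℝ)| ≤ C₁ * Hq s ^ α) :
    ∃ C : ℝ, 0 < C ∧ ∀ (d x : ℤ) (s : ℚ), d ≠ 0 → R s ((x : ℚ) ^ 3 / d) →
      |(x : ℝ)| ≤ C * |(d : ℝ)| ^ ((N : ℝ) / (3 * (N - α))) := by
  obtain ⟨C₂, hC₂, hH⟩ := hH
  have hN0 : (0 : ℝ) < N := lt_of_le_of_lt hα hαN
  have hNα : (0 : ℝ) < N - α := by linarith
  obtain ⟨β, hβ⟩ : ∃ β : ℝ, β = N / (N - α) := ⟨_, rfl⟩
  have hβ1 : 1 ≤ β := by
    rw [hβ, le_div_iff₀ hNα]
    linarith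
  have hβ0 : 0 < β := by linarith
  have hex : (N : ℝ) / (3 * (N - α)) = β * (1 / 3) := by
    rw [hβ]
    field_simp
  obtain ⟨K, hK⟩ : ∃ K : ℝ, K = C₁ * C₂ ^ (α / N) := ⟨_, rfl⟩
  have hK0 : 0 < K := by rw [hK]; positivity
  refine ⟨1 + (K ^ β) ^ ((1 : ℝ) / 3), by positivity, fun d x s hd hR => ?_⟩
  have hdQ : (d : ℚ) ≠ 0 := by exact_mod_cast hd
  have hd1 : 1 ≤ |(d : ℝ)| := by
    have : (1 : ℤ) ≤ |d| := Int.one_le_abs hd
    exact_mod_cast this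
  have hd0 : 0 < |(d : ℝ)| := by linarith
  rw [hex]
  have hX0 : 0 ≤ |(x : ℝ)| := abs_nonneg _
  have hcube : ∀ u : ℝ, 0 ≤ u → (u ^ 3) ^ ((1 : ℝ) / 3) = u := fun u hu => by
    rw [← Real.rpow_natCast, ← Real.rpow_mul hu]
    norm_num
  have hD0 : 0 ≤ |(d : ℝ)| ^ (β * (1 / 3)) := by positivity
  have hK3 : 0 ≤ (K ^ β) ^ ((1 : ℝ) / 3) := by positivity
  by_cases hc : |(x : ℝ)| ^ 3 ≤ |(d : ℝ)|
  · have h1 : |(x : ℝ)| ≤ |(d : ℝ)| ^ ((1 : ℝ) / 3) := by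
      rw [← hcube _ hX0]
      exact Real.rpow_le_rpow (by positivity) hc (by norm_num)
    have h2 : |(d : ℝ)| ^ ((1 : ℝ) / 3) ≤ |(d : ℝ)| ^ (β * (1 / 3)) :=
      Real.rpow_le_rpow_of_exponent_le hd1 (by linarith)
    nlinarith [mul_nonneg hK3 hD0]
  · push Not at hc
    have hXp : 0 < |(x : ℝ)| ^ 3 := by linarith
    obtain ⟨T, hT⟩ : ∃ T : ℝ, T = |(x : ℝ)| ^ 3 := ⟨_, rfl⟩
    have hT0 : 0 < T := by rw [hT]; exact hXp
    -- the height of `t`
    have ht : Hq ((x : ℚ) ^ 3 / d) ≤ T := by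
      have hxT : |((x ^ 3 : ℤ) : ℝ)| = T := by rw [hT]; push_cast; rw [abs_pow]
      have hnum : |((((x : ℚ) ^ 3 / d).num : ℤ) : ℝ)| ≤ T := by
        have h1 : ((x : ℚ) ^ 3 / d).num ∣ x ^ 3 := by
          have := Rat.num_dvd (x ^ 3) hd
          rw [Rat.divInt_eq_div] at this
          push_cast at this
          exact_mod_cast this
        rcases eq_or_ne (x ^ 3) 0 with h0 | h0
        · rw [h0] at hxT
          rw [← hxT] at hT0
          simp at hT0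
        · have h2 := Int.le_of_dvd (abs_pos.2 h0) ((abs_dvd_abs _ _).2 h1)
          rw [← hxT]
          exact_mod_cast h2
      have hden : ((((x : ℚ) ^ 3 / d).den : ℕ) : ℝ) ≤ T := by
        have h1 : ((((x : ℚ) ^ 3 / d).den : ℕ) : ℤ) ∣ d := by
          have := Rat.den_dvd (x ^ 3) d
          rw [Rat.divInt_eq_div] at this
          push_cast at this
          exact_mod_cast this
        have h2 := Int.le_of_dvd (abs_pos.2 hd) ((dvd_abs _ _).2 h1)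
        have h3 : ((((x : ℚ) ^ 3 / d).den : ℕ) : ℝ) ≤ |(d : ℝ)| := by exact_mod_cast h2
        linarith
      exact max_le hnum hden
    have h1 := hH s _ hR
    have h2 := hb s _ hR
    have h3 : Hq s ^ N ≤ C₂ * T := h1.trans (mul_le_mul_of_nonneg_left ht hC₂.le)
    have h4 : Hq s ^ α ≤ C₂ ^ (α / N) * T ^ (α / N) := by
      have e1 : Hq s ^ α = (Hq s ^ N) ^ (α / N) := by
        rw [← Real.rpow_natCast, ← Real.rpow_mul (Hq_pos s).le]
        congr 1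
        field_simp
      rw [e1, ← Real.mul_rpow hC₂.le hT0.le]
      exact Real.rpow_le_rpow (by have := (Hq_pos s).le; positivity) h3 (by positivity)
    have h5 : |(((x : ℚ) ^ 3 / d : ℚ) : ℝ)| = T / |(d : ℝ)| := by
      rw [hT]
      push_cast
      rw [abs_div, abs_pow]
    rw [h5] at h2
    have h6 : T ≤ |(d : ℝ)| * (K * T ^ (α / N)) := by
      rw [div_le_iff₀ hd0] at h2
      calc T ≤ C₁ * Hq s ^ α * |(d : ℝ)| := h2
        _ ≤ C₁ * (C₂ ^ (α / N) * T ^ (α / N)) * |(d : ℝ)| := by gcongr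
        _ = _ := by rw [hK]; ring
    have h7 : T ^ (1 - α / N) ≤ K * |(d : ℝ)| := by
      have hTp : 0 < T ^ (α / N) := by positivity
      rw [Real.rpow_sub hT0, Real.rpow_one, div_le_iff₀ hTp]
      calc T ≤ |(d : ℝ)| * (K * T ^ (α / N)) := h6
        _ = _ := by ring
    have h8 : T ≤ K ^ β * |(d : ℝ)| ^ β := by
      have e1 : T = (T ^ (1 - α / N)) ^ β := by
        rw [← Real.rpow_mul hT0.le]
        have : (1 - α / N) * β = 1 := by
          rw [hβ]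
          field_simp
        rw [this, Real.rpow_one]
      rw [e1, ← Real.mul_rpow hK0.le hd0.le]
      exact Real.rpow_le_rpow (by positivity) h7 hβ0.le
    have h9 : |(x : ℝ)| ≤ (K ^ β) ^ ((1 : ℝ) / 3) * |(d : ℝ)| ^ (β * (1 / 3)) := by
      rw [Real.rpow_mul hd0.le, ← Real.mul_rpow (by positivity) (by positivity)]
      rw [← hcube _ hX0]
      exact Real.rpow_le_rpow (by positivity) (by rw [← hT]; exact h8) (by norm_num)
    linarith

end Pool.Agent.T9h58.Hall
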