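import Mathlib

/-! # The maps on `x³ / d` induced by duplication and by the 3-isogeny: poles and proximity -/

set_option autoImplicit false

namespace Pool.Agent.T9h58.Hall

open Polynomial Finset

/-- `s = x(P)³/d`, `t = x(2P)³/d` -/
def R2 (s t : ℚ) : Prop := s + 1 ≠ 0 ∧ t * (64 * (s + 1) ^ 3) = s * (s - 8) ^ 3

/-- the same for the 3-isogeny -/
def R3 (s t : ℚ) : Prop := s ≠ 0 ∧ t * (27 * s ^ 2) = -(s + 4) ^ 3

/-- `max(1, |s|)` -/
noncomputable def M (s : ℚ) : ℝ := max 1 |(s : ℝ)|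

lemma one_le_M (s : ℚ) : 1 ≤ M s := le_max_left _ _
lemma abs_le_M (s : ℚ) : |(s : ℝ)| ≤ M s := le_max_right _ _
lemma M_pos (s : ℚ) : 0 < M s := lt_of_lt_of_le one_pos (one_le_M s)

/-- the proximity property of a relation -/
def Prox (R : ℚ → ℚ → Prop) : Prop :=
  ∃ Z : Finset ℂ, (∀ z ∈ Z, IsAlgebraic ℚ z) ∧ (0 : ℂ) ∉ Z ∧ (-1 : ℂ) ∉ Z ∧ ∃ C : ℝ, ∀ s t : ℚ, R s t →
    |(t : ℝ)| * |(s : ℝ)| ^ 2 * |(s : ℝ) + 1| ^ 3 * ∏ z ∈ Z, ‖(s : ℂ) - z‖ ^ 6 ≤ C * M s ^ (6 * Z.card + 6)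

/-- the roots of a monic separable polynomial -/
lemma fib (p : ℂ[X]) (hm : p.Monic) (hs : ∀ τ, p.eval τ = 0 → p.derivative.eval τ ≠ 0) :
    ∃ P : Finset ℂ, P.card = p.natDegree ∧ (∀ s, ∏ τ ∈ P, (s - τ) = p.eval s) ∧
      (∀ τ, τ ∈ P ↔ p.eval τ = 0) := by
  classical
  have hsp : p.Splits := IsAlgClosed.splits p
  have hcard : p.roots.card = p.natDegree := (splits_iff_card_roots.1 hsp)
  have hnd : p.roots.Nodup := by
    rw [Multiset.nodup_iff_count_le_one]
    intro a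
    rw [count_roots]
    by_contra h
    push Not at h
    rw [one_lt_rootMultiplicity_iff_isRoot hm.ne_zero] at h
    exact hs a h.1 h.2
  refine ⟨p.roots.toFinset, ?_, ?_, ?_⟩
  · rw [Multiset.toFinset_card_of_nodup hnd, hcard]
  · intro s
    have h1 := prod_multiset_X_sub_C_of_monic_of_roots_card_eq hm hcard
    conv_rhs => rw [← h1]
    rw [eval_multiset_prod, Multiset.map_map]
    rw [Finset.prod_eq_multiset_prod, Multiset.toFinset_val, Multiset.dedup_eq_self.2 hnd]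
    congr 1
    refine Multiset.map_congr rfl fun a _ => ?_
    simp
  · intro τ
    rw [Multiset.mem_toFinset, mem_roots hm.ne_zero]
    rfl

/-- roots of polynomials with algebraic coefficients are algebraic -/
lemma alg_of_root (p : ℂ[X]) (hp : p ≠ 0) (hc : ∀ i, IsAlgebraic ℚ (p.coeff i)) {τ : ℂ} (h : p.eval τ = 0) :
    IsAlgebraic ℚ τ := by
  have hmem : ∀ i, p.coeff i ∈ algebraicClosure ℚ ℂ := fun i => by
    rw [mem_algebraicClosure_iff]
    exact hc i
  have hlift : p ∈ Polynomial.lifts (algebraMap (algebraicClosure ℚ ℂ) ℂ) := by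
    rw [Polynomial.lifts_iff_coeff_lifts]
    intro i
    exact ⟨⟨p.coeff i, hmem i⟩, rfl⟩
  obtain ⟨q, hq⟩ := (Polynomial.mem_lifts _).1 hlift
  have hq0 : q ≠ 0 := by
    rintro rfl
    apply hp
    rw [← hq, Polynomial.map_zero]
  have hτL : IsAlgebraic (algebraicClosure ℚ ℂ) τ := by
    refine ⟨q, hq0, ?_⟩
    rw [aeval_def, ← eval_map, hq, h]
  have : Algebra.IsAlgebraic ℚ (algebraicClosure ℚ ℂ) := algebraicClosure.isAlgebraic ℚ ℂ
  exact IsAlgebraic.restrictScalars ℚ hτL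

/-- a monic quartic -/
lemma quartic (a b c e : ℂ) (p : ℂ[X]) (hp : p = X ^ 4 + C a * X ^ 3 + C b * X ^ 2 + C c * X + C e) :
    p.natDegree = 4 ∧ p.Monic ∧ (∀ i, p.coeff i = 0 ∨ p.coeff i = 1 ∨ p.coeff i = a ∨ p.coeff i = b ∨
      p.coeff i = c ∨ p.coeff i = e) := by
  have hdeg : p.natDegree = 4 := by
    rw [hp]
    compute_degree!
  refine ⟨hdeg, ?_, fun i => ?_⟩
  · rw [Monic, leadingCoeff, hdeg, hp]
    simp [coeff_X, coeff_C]
  · rcases Nat.lt_or_ge 4 i with hi | hi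
    · left
      exact coeff_eq_zero_of_natDegree_lt (by omega)
    · interval_cases i <;> rw [hp] <;> simp [coeff_X, coeff_C]

/-- a monic cubic -/
lemma cubic (b c e : ℂ) (p : ℂ[X]) (hp : p = X ^ 3 + C b * X ^ 2 + C c * X + C e) :
    p.natDegree = 3 ∧ p.Monic ∧ (∀ i, p.coeff i = 0 ∨ p.coeff i = 1 ∨ p.coeff i = b ∨
      p.coeff i = c ∨ p.coeff i = e) := by
  have hdeg : p.natDegree = 3 := by
    rw [hp]
    compute_degree!
  refine ⟨hdeg, ?_, fun i => ?_⟩
  · rw [Monic, leadingCoeff, hdeg, hp]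
    simp [coeff_X, coeff_C]
  · rcases Nat.lt_or_ge 3 i with hi | hi
    · left
      exact coeff_eq_zero_of_natDegree_lt (by omega)
    · interval_cases i <;> rw [hp] <;> simp [coeff_X, coeff_C]

/-- the fibre of the duplication over `z` -/
lemma fib2 (z : ℂ) (hz : IsAlgebraic ℚ z) (h0 : z ≠ 0) (h1 : z ≠ -1) :
    ∃ P : Finset ℂ, P.card = 4 ∧ (∀ s, ∏ τ ∈ P, (s - τ) = s * (s - 8) ^ 3 - z * (64 * (s + 1) ^ 3)) ∧
      (∀ τ, τ ∈ P ↔ τ * (τ - 8) ^ 3 - z * (64 * (τ + 1) ^ 3) = 0) ∧ (∀ τ ∈ P, IsAlgebraic ℚ τ) := by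
  obtain ⟨p, hp⟩ : ∃ p : ℂ[X], p = X * (X - C 8) ^ 3 - C z * (C 64 * (X + C 1) ^ 3) := ⟨_, rfl⟩
  have hev : ∀ s, p.eval s = s * (s - 8) ^ 3 - z * (64 * (s + 1) ^ 3) := fun s => by
    rw [hp]
    simp
  have hp' : p = X ^ 4 + C (-24 - 64 * z) * X ^ 3 + C (192 - 192 * z) * X ^ 2 + C (-512 - 192 * z) * X + C (-64 * z) := by
    rw [hp]
    simp only [map_sub, map_add, map_mul, map_neg, map_ofNat, map_one]
    ring
  obtain ⟨hdeg, hmon, hco⟩ := quartic _ _ _ _ p hp'
  have hder : ∀ s, p.derivative.eval s = (s - 8) ^ 3 + 3 * s * (s - 8) ^ 2 - 192 * z * (s + 1) ^ 2 := fun s => by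
    rw [hp']
    simp [derivative_pow]
    ring
  obtain ⟨P, hP1, hP2, hP3⟩ := fib p hmon (by
    intro τ e1 e2
    rw [hev] at e1
    rw [hder] at e2
    have e3 : (τ - 8) ^ 2 * (τ ^ 2 + 20 * τ - 8) = 0 := by
      linear_combination (τ + 1) * e2 - 3 * e1
    rcases mul_eq_zero.1 e3 with e4 | e4
    · have e5 : τ = 8 := by
        have := pow_eq_zero_iff (two_ne_zero) |>.1 e4
        linear_combination this
      rw [e5] at e1
      norm_num at e1
      exact h0 e1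
    · have e5 : (1 + z) * (τ + 1) ^ 3 = 0 := by
        have : 64 * ((1 + z) * (τ + 1) ^ 3) = 0 := by
          linear_combination (τ ^ 2 + 20 * τ - 8) * e4 - e1
        simpa using this
      rcases mul_eq_zero.1 e5 with e6 | e6
      · exact h1 (by linear_combination e6)
      · have e7 : τ = -1 := by
          have := pow_eq_zero_iff (three_ne_zero) |>.1 e6
          linear_combination this
        rw [e7] at e4
        norm_num at e4)
  refine ⟨P, by rw [hP1, hdeg], fun s => by rw [hP2, hev], fun τ => by rw [hP3, hev], fun τ hτ => ?_⟩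
  refine alg_of_root p hmon.ne_zero ?_ ((hP3 τ).1 hτ)
  intro i
  have hq : ∀ q : ℚ, IsAlgebraic ℚ ((q : ℂ)) := fun q => isAlgebraic_algebraMap q
  have key : ∀ a b : ℚ, IsAlgebraic ℚ ((a : ℂ) + b * z) := fun a b => (hq a).add ((hq b).mul hz)
  rcases hco i with h | h | h | h | h | h <;> rw [h]
  · exact isAlgebraic_zero
  · exact isAlgebraic_one
  · have := key (-24) (-64)
    push_cast at this
    convert this using 1
    ring
  · have := key 192 (-192)
    push_cast at this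
    convert this using 1
    ring
  · have := key (-512) (-192)
    push_cast at this
    convert this using 1
    ring
  · have := key 0 (-64)
    push_cast at this
    convert this using 1
    ring

/-- the fibre of the 3-isogeny over `z` -/
lemma fib3 (z : ℂ) (hz : IsAlgebraic ℚ z) (h0 : z ≠ 0) (h1 : z ≠ -1) :
    ∃ P : Finset ℂ, P.card = 3 ∧ (∀ s, ∏ τ ∈ P, (s - τ) = (s + 4) ^ 3 + z * (27 * s ^ 2)) ∧
      (∀ τ, τ ∈ P ↔ (τ + 4) ^ 3 + z * (27 * τ ^ 2) = 0) ∧ (∀ τ ∈ P, IsAlgebraic ℚ τ) := by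
  obtain ⟨p, hp'⟩ : ∃ p : ℂ[X], p = X ^ 3 + C (12 + 27 * z) * X ^ 2 + C 48 * X + C 64 := ⟨_, rfl⟩
  have hev : ∀ s, p.eval s = (s + 4) ^ 3 + z * (27 * s ^ 2) := fun s => by
    rw [hp']
    simp
    ring
  obtain ⟨hdeg, hmon, hco⟩ := cubic _ _ _ p hp'
  have hder : ∀ s, p.derivative.eval s = 3 * (s + 4) ^ 2 + 54 * z * s := fun s => by
    rw [hp']
    simp [derivative_pow]
    ring
  obtain ⟨P, hP1, hP2, hP3⟩ := fib p hmon (by
    intro τ e1 e2
    rw [hev] at e1
    rw [hder] at e2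
    have e3 : (τ + 4) ^ 2 * (τ - 8) = 0 := by
      linear_combination τ * e2 - 2 * e1
    rcases mul_eq_zero.1 e3 with e4 | e4
    · have e5 : τ = -4 := by
        have := pow_eq_zero_iff (two_ne_zero) |>.1 e4
        linear_combination this
      rw [e5] at e1
      norm_num at e1
      exact h0 e1
    · have e5 : τ = 8 := by linear_combination e4
      rw [e5] at e1
      apply h1
      linear_combination e1 / 1728)
  refine ⟨P, by rw [hP1, hdeg], fun s => by rw [hP2, hev], fun τ => by rw [hP3, hev], fun τ hτ => ?_⟩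
  refine alg_of_root p hmon.ne_zero ?_ ((hP3 τ).1 hτ)
  intro i
  have hq : ∀ q : ℚ, IsAlgebraic ℚ ((q : ℂ)) := fun q => isAlgebraic_algebraMap q
  have key : ∀ a b : ℚ, IsAlgebraic ℚ ((a : ℂ) + b * z) := fun a b => (hq a).add ((hq b).mul hz)
  rcases hco i with h | h | h | h | h <;> rw [h]
  · exact isAlgebraic_zero
  · exact isAlgebraic_one
  · have := key 12 27
    push_cast at this
    exact this
  · have := hq 48
    push_cast at this
    exact this
  · have := hq 64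
    push_cast at this
    exact this

end Pool.Agent.T9h58.Hall
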