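import Pool.Agent.T9h58.Hall.Elem

/-! # The bounds in terms of `IsMul` -/

set_option autoImplicit false

namespace Pool.Agent.T9h58.Hall

open WeierstrassCurve Finset

lemma IsMul.point {n : ℕ} {d x y : ℤ} (h : IsMul n d x y) :
    ∃ (x₁ y₁ : ℚ) (h₁ : (curve d).Nonsingular x₁ y₁) (h' : (curve d).Nonsingular (x : ℚ) (y : ℚ)),
      n • Affine.Point.some x₁ y₁ h₁ = Affine.Point.some (x : ℚ) (y : ℚ) h' := by
  obtain ⟨h', P, hP⟩ := h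
  rcases P with _ | ⟨x₁, y₁, h₁⟩
  · have h5 : n • (0 : (curve d).Point) = Affine.Point.some (x : ℚ) (y : ℚ) h' := hP
    rw [nsmul_zero] at h5
    exact absurd h5.symm (Affine.Point.some_ne_zero _)
  · exact ⟨x₁, y₁, h₁, h', hP⟩

theorem bound2 : ∃ C : ℝ, 0 < C ∧ ∀ d x y : ℤ, d ≠ 0 → IsMul 2 d x y →
    |(x : ℝ)| ≤ C * |(d : ℝ)| ^ ((4 : ℝ) / 3) := by
  obtain ⟨C, hC, h⟩ := extract (N := 4) ht2 (α := 3) (C₁ := 32) (by norm_num) (by norm_num) (by norm_num) elem2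
  refine ⟨C, hC, fun d x y hd hm => ?_⟩
  obtain ⟨x₁, y₁, h₁, h', e⟩ := hm.point
  have := h d x _ hd (dbl_track hd e)
  norm_num at this
  exact this

theorem bound3 : ∃ C : ℝ, 0 < C ∧ ∀ d x y : ℤ, d ≠ 0 → IsMul 3 d x y →
    |(x : ℝ)| ≤ C * |(d : ℝ)| := by
  obtain ⟨C, hC, h⟩ := extract (N := 9) (hts_comp ht3 ht3) (α := 6) (C₁ := 7104 ^ 3) (by norm_num)
    (by norm_num) (by norm_num) elem3
  refine ⟨C, hC, fun d x y hd hm => ?_⟩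
  obtain ⟨x₁, y₁, h₁, h', e⟩ := hm.point
  have := h d x _ hd (trp_track hd e)
  norm_num at this
  exact this

theorem boundn (a b : ℕ) (hn : 4 ≤ 2 ^ a * 3 ^ b) (ε : ℝ) (hε : 0 < ε) :
    ∃ C : ℝ, 0 < C ∧ ∀ d x y : ℤ, d ≠ 0 → IsMul (2 ^ a * 3 ^ b) d x y →
      |(x : ℝ)| ≤ C * |(d : ℝ)| ^ ((((2 ^ a * 3 ^ b : ℕ) : ℝ) ^ 2) / (3 * (((2 ^ a * 3 ^ b : ℕ) : ℝ) ^ 2 - 12)) + ε) := by
  obtain ⟨n, hn'⟩ : ∃ n : ℕ, n = 2 ^ a * 3 ^ b := ⟨_, rfl⟩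
  have hG := good_smooth a b
  rw [← hn'] at hG hn ⊢
  obtain ⟨R, hP, hH, hF, hT⟩ := hG
  obtain ⟨ε₁, hε₁⟩ : ∃ ε₁ : ℝ, ε₁ = min 1 ε := ⟨_, rfl⟩
  have hε0 : 0 < ε₁ := by rw [hε₁]; exact lt_min one_pos hε
  have hε1 : ε₁ ≤ 1 := by rw [hε₁]; exact min_le_left _ _
  have hεε : ε₁ ≤ ε := by rw [hε₁]; exact min_le_right _ _
  obtain ⟨C₁, hC₁, hb⟩ := prox_bound hP hF ε₁ hε0
  have hn4 : (4 : ℝ) ≤ n := by exact_mod_cast hn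
  have hn16 : (16 : ℝ) ≤ (n : ℝ) ^ 2 := by nlinarith
  obtain ⟨C, hC, h⟩ := extract (N := n ^ 2) hH (α := 12 + ε₁) (C₁ := C₁) (by linarith)
    (by push_cast; linarith) hC₁ hb
  refine ⟨C, hC, fun d x y hd hm => ?_⟩
  obtain ⟨x₁, y₁, h₁, h', e⟩ := hm.point
  refine (h d x _ hd (hT d hd _ _ _ _ _ _ e)).trans ?_
  refine mul_le_mul_of_nonneg_left ?_ hC.le
  have hd1 : 1 ≤ |(d : ℝ)| := by
    have : (1 : ℤ) ≤ |d| := Int.one_le_abs hd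
    exact_mod_cast this
  apply Real.rpow_le_rpow_of_exponent_le hd1
  push_cast
  obtain ⟨N, hN⟩ : ∃ N : ℝ, N = (n : ℝ) ^ 2 := ⟨_, rfl⟩
  rw [← hN]
  rw [← hN] at hn16
  have h1 : 0 < 3 * (N - (12 + ε₁)) := by linarith
  have h2 : 0 < 3 * (N - 12) := by linarith
  refine le_trans ?_ (add_le_add_right hεε _)
  rw [div_add' _ _ _ h2.ne', div_le_div_iff₀ h1 h2]
  have h3 : N ≤ 3 * (N - 12 - ε₁) * (N - 12) := by
    nlinarith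
  nlinarith

end Pool.Agent.T9h58.Hall
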