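import Mathlib

/-! # Duplication and triplication on the curves `y² = x³ + d` -/

set_option autoImplicit false

namespace Pool.Agent.T9h58.Hall

open WeierstrassCurve

/-- The curve `y² = x³ + d` over `ℚ`. -/
def curve (d : ℤ) : WeierstrassCurve.Affine ℚ := { a₁ := 0, a₂ := 0, a₃ := 0, a₄ := 0, a₆ := (d : ℚ) }

variable {d : ℤ}

lemma curve_eq {x y : ℚ} (h : (curve d).Nonsingular x y) : y ^ 2 = x ^ 3 + d := by
  have h1 := h.1
  rw [WeierstrassCurve.Affine.equation_iff] at h1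
  simpa [curve] using h1

lemma negY_eq (x y : ℚ) : (curve d).negY x y = -y := by
  simp [WeierstrassCurve.Affine.negY, curve]

/-- the point `2 P` -/
lemma dbl {x₁ y₁ x y : ℚ} {h₁ : (curve d).Nonsingular x₁ y₁} {h : (curve d).Nonsingular x y}
    (e : Affine.Point.some x₁ y₁ h₁ + Affine.Point.some x₁ y₁ h₁ = Affine.Point.some x y h) :
    y₁ ≠ 0 ∧ x = (3 * x₁ ^ 2 / (2 * y₁)) ^ 2 - 2 * x₁ ∧
      y = -(3 * x₁ ^ 2 / (2 * y₁)) * (x - x₁) - y₁ := by
  by_cases hy : y₁ = (curve d).negY x₁ y₁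
  · rw [Affine.Point.add_self_of_Y_eq hy] at e
    exact absurd e.symm (Affine.Point.some_ne_zero _)
  · have hy0 : y₁ ≠ 0 := by
      intro h0
      apply hy
      rw [negY_eq, h0, neg_zero]
    rw [Affine.Point.add_self_of_Y_ne hy, Affine.Point.some.injEq] at e
    have hs : (curve d).slope x₁ x₁ y₁ y₁ = 3 * x₁ ^ 2 / (2 * y₁) := by
      rw [WeierstrassCurve.Affine.slope_of_Y_ne rfl hy, negY_eq]
      simp only [curve]
      congr 1 <;> ring
    have hX : x = (3 * x₁ ^ 2 / (2 * y₁)) ^ 2 - 2 * x₁ := by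
      rw [← e.1, hs]
      simp only [WeierstrassCurve.Affine.addX, curve]
      ring
    refine ⟨hy0, hX, ?_⟩
    have h2 := e.2
    rw [WeierstrassCurve.Affine.addY, negY_eq, WeierstrassCurve.Affine.negAddY, e.1, hs] at h2
    rw [← h2]
    ring

/-- the `x`-coordinate of `2 P` -/
lemma dbl_x {x₁ y₁ x y : ℚ} {h₁ : (curve d).Nonsingular x₁ y₁} {h : (curve d).Nonsingular x y}
    (e : 2 • Affine.Point.some x₁ y₁ h₁ = Affine.Point.some x y h) :
    x₁ ^ 3 + d ≠ 0 ∧ x * (4 * (x₁ ^ 3 + d)) = x₁ * (x₁ ^ 3 - 8 * d) := by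
  rw [two_nsmul] at e
  obtain ⟨h0, hx, -⟩ := dbl e
  have hc := curve_eq h₁
  rw [← hc]
  refine ⟨pow_ne_zero 2 h0, ?_⟩
  rw [hx]
  field_simp
  have : (d : ℚ) = y₁ ^ 2 - x₁ ^ 3 := by linarith
  rw [this]
  ring

/-- the `x`-coordinate of `3 P` -/
lemma trp_x (hd : d ≠ 0) {x₁ y₁ x y : ℚ} {h₁ : (curve d).Nonsingular x₁ y₁}
    {h : (curve d).Nonsingular x y}
    (e : 3 • Affine.Point.some x₁ y₁ h₁ = Affine.Point.some x y h) :
    x₁ ≠ 0 ∧ x₁ ^ 3 + 4 * d ≠ 0 ∧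
      x * (9 * x₁ ^ 2 * (x₁ ^ 3 + 4 * d) ^ 2) = x₁ ^ 9 - 96 * d * x₁ ^ 6 + 48 * d ^ 2 * x₁ ^ 3 + 64 * d ^ 3 := by
  have hd' : (d : ℚ) ≠ 0 := by exact_mod_cast hd
  have hc := curve_eq h₁
  rw [show 3 = 2 + 1 from rfl, add_nsmul, one_nsmul, two_nsmul] at e
  rcases e2 : Affine.Point.some x₁ y₁ h₁ + Affine.Point.some x₁ y₁ h₁ with _ | ⟨x₂, y₂, h₂⟩
  · -- `2 P = 0`
    rw [e2] at e
    have e3 : Affine.Point.some x₁ y₁ h₁ = Affine.Point.some x y h := by
      rw [← e]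
      exact (zero_add _).symm
    rw [Affine.Point.some.injEq] at e3
    have hy0 : y₁ = 0 := by
      by_contra hne
      have hy : y₁ ≠ (curve d).negY x₁ y₁ := by
        rw [negY_eq]
        intro h5
        apply hne
        linarith
      rw [Affine.Point.add_self_of_Y_ne hy] at e2
      exact absurd e2 (Affine.Point.some_ne_zero _)
    rw [hy0] at hc
    have hx1 : x₁ ^ 3 = -d := by linarith
    refine ⟨?_, ?_, ?_⟩
    · rintro rfl
      apply hd'
      linarith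
    · rw [hx1]
      intro h5
      apply hd'
      linarith
    · rw [← e3.1]
      have e9 : x₁ ^ 9 = -d ^ 3 := by
        calc x₁ ^ 9 = (x₁ ^ 3) ^ 3 := by ring
          _ = _ := by rw [hx1]; ring
      have e6 : x₁ ^ 6 = d ^ 2 := by
        calc x₁ ^ 6 = (x₁ ^ 3) ^ 2 := by ring
          _ = _ := by rw [hx1]; ring
      calc x₁ * (9 * x₁ ^ 2 * (x₁ ^ 3 + 4 * d) ^ 2) = 9 * x₁ ^ 3 * (x₁ ^ 3 + 4 * d) ^ 2 := by ring
        _ = _ := by rw [e9, e6, hx1]; ring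
  · rw [e2] at e
    obtain ⟨h0, hx2, hy2⟩ := dbl e2
    have hne : x₂ ≠ x₁ := by
      intro h5
      have hcc := curve_eq h₂
      have h6 : y₂ = y₁ ∨ y₂ = -y₁ := by
        apply sq_eq_sq_iff_eq_or_eq_neg.1
        rw [hcc, hc, h5]
      rcases h6 with h6 | h6
      · -- `2 P = P`
        have h7 : Affine.Point.some x₂ y₂ h₂ = Affine.Point.some x₁ y₁ h₁ := by
          rw [Affine.Point.some.injEq]
          exact ⟨h5, h6⟩
        rw [h7] at e2
        have h8 : Affine.Point.some x₁ y₁ h₁ = 0 := by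
          simpa using e2
        exact absurd h8 (Affine.Point.some_ne_zero _)
      · rw [Affine.Point.add_of_Y_eq h5 (by rw [negY_eq]; exact h6)] at e
        exact absurd e.symm (Affine.Point.some_ne_zero _)
    rw [Affine.Point.add_of_X_ne hne, Affine.Point.some.injEq] at e
    have hx : x = ((y₂ - y₁) / (x₂ - x₁)) ^ 2 - x₂ - x₁ := by
      rw [← e.1, WeierstrassCurve.Affine.slope_of_X_ne hne]
      simp only [WeierstrassCurve.Affine.addX, curve]
      ring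
    have hne' : x₂ - x₁ ≠ 0 := sub_ne_zero.2 hne
    have hdiff : x₂ - x₁ = -(3 * x₁ * (x₁ ^ 3 + 4 * d)) / (4 * y₁ ^ 2) := by
      rw [hx2]
      field_simp
      have : (d : ℚ) = y₁ ^ 2 - x₁ ^ 3 := by linarith
      rw [this]
      ring
    have hx10 : x₁ ≠ 0 := by
      rintro rfl
      apply hne'
      rw [hdiff]
      simp
    have h40 : x₁ ^ 3 + 4 * d ≠ 0 := by
      intro h5
      apply hne'
      rw [hdiff, h5]
      simp
    refine ⟨hx10, h40, ?_⟩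
    have hmu : (y₂ - y₁) / (x₂ - x₁) = -(3 * x₁ ^ 2 / (2 * y₁)) - 2 * y₁ / (x₂ - x₁) := by
      rw [hy2]
      field_simp
      ring
    have hinv : 2 * y₁ / (x₂ - x₁) = -(8 * y₁ ^ 3) / (3 * x₁ * (x₁ ^ 3 + 4 * d)) := by
      rw [hdiff]
      field_simp
      ring
    rw [hx, hmu, hinv, hx2]
    have hy2' : y₁ ^ 2 = x₁ ^ 3 + d := hc
    field_simp
    have e4 : y₁ ^ 4 = (x₁ ^ 3 + d) ^ 2 := by rw [← hc]; ring
    have e6 : y₁ ^ 6 = (x₁ ^ 3 + d) ^ 3 := by rw [← hc]; ring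
    have e8 : y₁ ^ 8 = (x₁ ^ 3 + d) ^ 4 := by rw [← hc]; ring
    ring_nf
    simp only [e4, e6, e8, hy2']
    ring

end Pool.Agent.T9h58.Hall
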