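import Pool.Agent.T9h58.Hall.Lat

/-! # Compositions with duplication and with the 3-isogeny -/

set_option autoImplicit false

namespace Pool.Agent.T9h58.Hall

open Polynomial Finset

lemma alg_num (n : ℕ) [n.AtLeastTwo] : IsAlgebraic ℚ (OfNat.ofNat n : ℂ) := isAlgebraic_nat n

lemma cast_abs (s : ℚ) : ‖(s : ℂ)‖ = |(s : ℝ)| := by
  rw [← Complex.ofReal_ratCast, Complex.norm_real, Real.norm_eq_abs]

lemma Mt_le {t : ℚ} {H G B : ℝ} (hH0 : 0 ≤ H) (hH : H ≤ B) (hG : |(t : ℝ)| * H ≤ B) : M t * H ≤ B := by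
  unfold M
  rw [max_mul_of_nonneg _ _ hH0, one_mul]
  exact max_le hH hG

theorem prox2 {R : ℚ → ℚ → Prop} (h : Prox R) : Prox (fun s u => ∃ t, R2 s t ∧ R t u) := by
  classical
  obtain ⟨Z, hZ, h0, h1, C, hC⟩ := h
  have hne0 : ∀ z ∈ Z, z ≠ 0 := fun z hz e => h0 (e ▸ hz)
  have hne1 : ∀ z ∈ Z, z ≠ -1 := fun z hz e => h1 (e ▸ hz)
  have hfib : ∀ z ∈ Z, ∃ P : Finset ℂ, P.card = 4 ∧
      (∀ s, ∏ τ ∈ P, (s - τ) = s * (s - 8) ^ 3 - z * (64 * (s + 1) ^ 3)) ∧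
      (∀ τ, τ ∈ P ↔ τ * (τ - 8) ^ 3 - z * (64 * (τ + 1) ^ 3) = 0) ∧ (∀ τ ∈ P, IsAlgebraic ℚ τ) :=
    fun z hz => fib2 z (hZ z hz) (hne0 z hz) (hne1 z hz)
  choose! P hP1 hP2 hP3 hP4 using hfib
  obtain ⟨w, hw⟩ : ∃ w : ℂ, w ^ 2 = 3 := IsAlgClosed.exists_pow_nat_eq 3 two_pos
  have hw0 : w ≠ 0 := by
    rintro rfl
    norm_num at hw
  have hwalg : IsAlgebraic ℚ w := by
    refine IsAlgebraic.of_pow two_pos ?_
    rw [hw]
    exact alg_num 3
  -- properties of the members of the fibres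
  have e8 : ∀ z ∈ Z, (8 : ℂ) ∉ P z := fun z hz hm => by
    have := (hP3 z hz 8).1 hm
    norm_num at this
    exact hne0 z hz this
  have eq : ∀ z ∈ Z, ∀ τ ∈ P z, τ ^ 2 + 20 * τ - 8 ≠ 0 := fun z hz τ hm e => by
    have e1 := (hP3 z hz τ).1 hm
    have e5 : (1 + z) * (τ + 1) ^ 3 = 0 := by
      have : 64 * ((1 + z) * (τ + 1) ^ 3) = 0 := by
        linear_combination (τ ^ 2 + 20 * τ - 8) * e - e1
      simpa using this
    rcases mul_eq_zero.1 e5 with e6 | e6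
    · exact hne1 z hz (by linear_combination e6)
    · have e7 : τ = -1 := by
        have := pow_eq_zero_iff (three_ne_zero) |>.1 e6
        linear_combination this
      rw [e7] at e
      norm_num at e
  have em0 : ∀ z ∈ Z, (0 : ℂ) ∉ P z := fun z hz hm => by
    have := (hP3 z hz 0).1 hm
    norm_num at this
    exact hne0 z hz this
  have em1 : ∀ z ∈ Z, ∀ τ ∈ P z, τ + 1 ≠ 0 := fun z hz τ hm e => by
    have e1 := (hP3 z hz τ).1 hm
    have e2 : τ = -1 := by linear_combination e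
    rw [e2] at e1
    norm_num at e1
  have hdisj : ∀ x ∈ Z, ∀ y ∈ Z, x ≠ y → Disjoint (P x) (P y) := fun x hx y hy hxy => by
    rw [Finset.disjoint_left]
    intro τ h2 h3
    have e2 := (hP3 x hx τ).1 h2
    have e3 := (hP3 y hy τ).1 h3
    have e4 : (x - y) * (64 * (τ + 1) ^ 3) = 0 := by linear_combination e3 - e2
    rcases mul_eq_zero.1 e4 with e5 | e5
    · exact hxy (sub_eq_zero.1 e5)
    · exact em1 x hx τ h2 (by simpa using e5)
  obtain ⟨a, ha⟩ : ∃ a : ℂ, a = -10 + 6 * w := ⟨_, rfl⟩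
  obtain ⟨b, hb⟩ : ∃ b : ℂ, b = -10 - 6 * w := ⟨_, rfl⟩
  have hqa : a ^ 2 + 20 * a - 8 = 0 := by rw [ha]; linear_combination 36 * hw
  have hqb : b ^ 2 + 20 * b - 8 = 0 := by rw [hb]; linear_combination 36 * hw
  have hab : a ≠ b := by
    intro e
    apply hw0
    rw [ha, hb] at e
    linear_combination e / 12
  have haP : a ∉ Z.biUnion P := by
    rw [mem_biUnion]
    rintro ⟨z, hz, h⟩
    exact eq z hz a h hqa
  have hbP : b ∉ Z.biUnion P := by
    rw [mem_biUnion]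
    rintro ⟨z, hz, h⟩
    exact eq z hz b h hqb
  have h8P : (8 : ℂ) ∉ Z.biUnion P := by
    rw [mem_biUnion]
    rintro ⟨z, hz, h⟩
    exact e8 z hz h
  have h8a : (8 : ℂ) ≠ a := by
    intro e
    rw [← e] at hqa
    norm_num at hqa
  have h8b : (8 : ℂ) ≠ b := by
    intro e
    rw [← e] at hqb
    norm_num at hqb
  have hb' : b ∉ Z.biUnion P := hbP
  have ha' : a ∉ insert b (Z.biUnion P) := by
    rw [mem_insert]
    rintro (h | h)
    · exact hab h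
    · exact haP h
  have h8' : (8 : ℂ) ∉ insert a (insert b (Z.biUnion P)) := by
    rw [mem_insert, mem_insert]
    rintro (h | h | h)
    · exact h8a h
    · exact h8b h
    · exact h8P h
  have hcard : (insert (8 : ℂ) (insert a (insert b (Z.biUnion P)))).card = 3 + 4 * Z.card := by
    rw [card_insert_of_notMem h8', card_insert_of_notMem ha', card_insert_of_notMem hb', card_biUnion hdisj,
      sum_congr rfl (fun z hz => hP1 z hz), sum_const, smul_eq_mul]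
    ring
  refine ⟨insert (8 : ℂ) (insert a (insert b (Z.biUnion P))), ?_, ?_, ?_, |C| * 729 ^ (6 * Z.card + 6), ?_⟩
  · intro z hz
    rw [mem_insert, mem_insert, mem_insert, mem_biUnion] at hz
    rcases hz with rfl | rfl | rfl | ⟨y, hy, h⟩
    · exact alg_num 8
    · rw [ha]
      exact (alg_num 10).neg.add ((alg_num 6).mul hwalg)
    · rw [hb]
      exact (alg_num 10).neg.sub ((alg_num 6).mul hwalg)
    · exact hP4 y hy z h
  · rw [mem_insert, mem_insert, mem_insert, mem_biUnion]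
    rintro (h | h | h | ⟨y, hy, h⟩)
    · norm_num at h
    · rw [← h] at hqa
      norm_num at hqa
    · rw [← h] at hqb
      norm_num at hqb
    · exact em0 y hy h
  · rw [mem_insert, mem_insert, mem_insert, mem_biUnion]
    rintro (h | h | h | ⟨y, hy, h⟩)
    · norm_num at h
    · rw [← h] at hqa
      norm_num at hqa
    · rw [← h] at hqb
      norm_num at hqb
    · exact em1 y hy _ h (by ring)
  · rintro s u ⟨t, ⟨hs1, hst⟩, htu⟩
    have hI := hC t u htu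
    obtain ⟨H, hH⟩ : ∃ H : ℝ, H = |64 * ((s : ℝ) + 1) ^ 3| := ⟨_, rfl⟩
    have hH0 : 0 ≤ H := by rw [hH]; positivity
    have hstR : (t : ℝ) * (64 * ((s : ℝ) + 1) ^ 3) = s * ((s : ℝ) - 8) ^ 3 := by exact_mod_cast hst
    have hstC : (t : ℂ) * (64 * ((s : ℂ) + 1) ^ 3) = s * ((s : ℂ) - 8) ^ 3 := by exact_mod_cast hst
    have hHC : ‖(64 * ((s : ℂ) + 1) ^ 3)‖ = H := by
      rw [hH]
      have : (64 * ((s : ℂ) + 1) ^ 3) = (((64 * ((s : ℝ) + 1) ^ 3 : ℝ)) : ℂ) := by push_cast; ring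
      rw [this, Complex.norm_real, Real.norm_eq_abs]
    have hprod : ∏ z ∈ Z, ∏ τ ∈ P z, ‖(s : ℂ) - τ‖ ^ 6 = (∏ z ∈ Z, ‖(t : ℂ) - z‖ ^ 6) * H ^ (6 * Z.card) := by
      have : ∀ z ∈ Z, ∏ τ ∈ P z, ‖(s : ℂ) - τ‖ ^ 6 = ‖(t : ℂ) - z‖ ^ 6 * H ^ 6 := fun z hz => by
        rw [prod_pow, ← norm_prod, hP2 z hz s, ← mul_pow, ← hHC, ← norm_mul]
        congr 2
        linear_combination -hstC
      rw [prod_congr rfl this, prod_mul_distrib, prod_const, ← pow_mul]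
    have hquad : ‖(s : ℂ) - a‖ ^ 6 * ‖(s : ℂ) - b‖ ^ 6 = |(s : ℝ) ^ 2 + 20 * s - 8| ^ 6 := by
      rw [← mul_pow, ← norm_mul]
      congr 1
      have : ((s : ℂ) - a) * ((s : ℂ) - b) = (((s : ℝ) ^ 2 + 20 * s - 8 : ℝ) : ℂ) := by
        rw [ha, hb]
        push_cast
        linear_combination -36 * hw
      rw [this, Complex.norm_real, Real.norm_eq_abs]
    have h8n : ‖(s : ℂ) - 8‖ = |(s : ℝ) - 8| := by
      have : (s : ℂ) - 8 = (((s : ℝ) - 8 : ℝ) : ℂ) := by push_cast; ring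
      rw [this, Complex.norm_real, Real.norm_eq_abs]
    rw [prod_insert h8', prod_insert ha', prod_insert hb', prod_biUnion (by
      intro x hx y hy hxy
      exact hdisj x hx y hy hxy), hprod, h8n, hcard]
    -- the products in terms of `t`
    have g1 : |(t : ℝ)| ^ 2 * H ^ 2 = |(s : ℝ)| ^ 2 * |(s : ℝ) - 8| ^ 6 := by
      rw [← mul_pow, hH, ← abs_mul, hstR, abs_mul, abs_pow]
      ring
    have g2 : |(t : ℝ) + 1| ^ 3 * H ^ 3 = |(s : ℝ) ^ 2 + 20 * s - 8| ^ 6 := by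
      rw [← mul_pow, hH, ← abs_mul]
      have : ((t : ℝ) + 1) * (64 * ((s : ℝ) + 1) ^ 3) = ((s : ℝ) ^ 2 + 20 * s - 8) ^ 2 := by
        linear_combination hstR
      rw [this, abs_pow]
      ring
    have g3 : |(s : ℝ) + 1| ^ 3 ≤ H := by
      rw [hH, abs_mul, abs_pow, abs_of_nonneg (by norm_num : (0 : ℝ) ≤ 64)]
      have : 0 ≤ |(s : ℝ) + 1| ^ 3 := by positivity
      linarith
    obtain ⟨Q, hQ⟩ : ∃ Q : ℝ, Q = ∏ z ∈ Z, ‖(t : ℂ) - z‖ ^ 6 := ⟨_, rfl⟩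
    have hQ0 : 0 ≤ Q := by rw [hQ]; exact prod_nonneg fun _ _ => by positivity
    rw [← hQ] at hI ⊢
    have hM1 := one_le_M s
    have hMH : M t * H ≤ 729 * M s ^ 4 := by
      have hsM := abs_le_M s
      have h4 : M s ^ 3 ≤ M s ^ 4 := pow_le_pow_right₀ hM1 (by norm_num)
      refine Mt_le (G := 0) hH0 ?_ ?_
      · rw [hH, abs_mul, abs_pow, abs_of_nonneg (by norm_num : (0 : ℝ) ≤ 64)]
        have h5 : |(s : ℝ) + 1| ≤ 2 * M s := by
          refine (abs_add_le _ _).trans ?_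
          rw [abs_one]
          linarith
        have h6 : |(s : ℝ) + 1| ^ 3 ≤ (2 * M s) ^ 3 := pow_le_pow_left₀ (abs_nonneg _) h5 3
        have h7 : 0 ≤ M s ^ 3 := by positivity
        nlinarith
      · rw [hH, ← abs_mul, hstR, abs_mul, abs_pow]
        have h5 : |(s : ℝ) - 8| ≤ 9 * M s := by
          refine (abs_sub _ _).trans ?_
          rw [abs_of_nonneg (by norm_num : (0 : ℝ) ≤ 8)]
          linarith
        calc |(s : ℝ)| * |(s : ℝ) - 8| ^ 3 ≤ M s * (9 * M s) ^ 3 :=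
              mul_le_mul hsM (pow_le_pow_left₀ (abs_nonneg _) h5 3) (by positivity) (by linarith)
          _ = _ := by ring
    calc |(u : ℝ)| * |(s : ℝ)| ^ 2 * |(s : ℝ) + 1| ^ 3 * (|(s : ℝ) - 8| ^ 6 * (‖(s : ℂ) - a‖ ^ 6 *
          (‖(s : ℂ) - b‖ ^ 6 * (Q * H ^ (6 * Z.card)))))
        = (|(u : ℝ)| * (|(s : ℝ)| ^ 2 * |(s : ℝ) - 8| ^ 6) * (‖(s : ℂ) - a‖ ^ 6 * ‖(s : ℂ) - b‖ ^ 6) * Q) *
            H ^ (6 * Z.card) * |(s : ℝ) + 1| ^ 3 := by ring
      _ = (|(u : ℝ)| * |(t : ℝ)| ^ 2 * |(t : ℝ) + 1| ^ 3 * Q) * (H ^ (6 * Z.card) * H ^ 5) * |(s : ℝ) + 1| ^ 3 := by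
          rw [hquad, ← g1, ← g2]
          ring
      _ ≤ (|C| * M t ^ (6 * Z.card + 6)) * (H ^ (6 * Z.card) * H ^ 5) * H := by
          have hCM : C * M t ^ (6 * Z.card + 6) ≤ |C| * M t ^ (6 * Z.card + 6) :=
            mul_le_mul_of_nonneg_right (le_abs_self C) (pow_nonneg (M_pos t).le _)
          refine mul_le_mul (mul_le_mul_of_nonneg_right (hI.trans hCM) (by positivity)) g3 (by positivity) ?_
          have := (M_pos t).le
          positivity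
      _ = |C| * (M t * H) ^ (6 * Z.card + 6) := by ring
      _ ≤ |C| * (729 * M s ^ 4) ^ (6 * Z.card + 6) := by
          refine mul_le_mul_of_nonneg_left (pow_le_pow_left₀ ?_ hMH _) (abs_nonneg C)
          have := (M_pos t).le
          positivity
      _ = |C| * 729 ^ (6 * Z.card + 6) * M s ^ (6 * (3 + 4 * Z.card) + 6) := by
          rw [mul_pow, ← pow_mul, show 4 * (6 * Z.card + 6) = 6 * (3 + 4 * Z.card) + 6 by ring]
          ring

theorem prox3 {R : ℚ → ℚ → Prop} (h : Prox R) : Prox (fun s u => ∃ t, R3 s t ∧ R t u) := by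
  classical
  obtain ⟨Z, hZ, h0, h1, C, hC⟩ := h
  have hne0 : ∀ z ∈ Z, z ≠ 0 := fun z hz e => h0 (e ▸ hz)
  have hne1 : ∀ z ∈ Z, z ≠ -1 := fun z hz e => h1 (e ▸ hz)
  have hfib : ∀ z ∈ Z, ∃ P : Finset ℂ, P.card = 3 ∧
      (∀ s, ∏ τ ∈ P, (s - τ) = (s + 4) ^ 3 + z * (27 * s ^ 2)) ∧
      (∀ τ, τ ∈ P ↔ (τ + 4) ^ 3 + z * (27 * τ ^ 2) = 0) ∧ (∀ τ ∈ P, IsAlgebraic ℚ τ) :=
    fun z hz => fib3 z (hZ z hz) (hne0 z hz) (hne1 z hz)
  choose! P hP1 hP2 hP3 hP4 using hfib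
  have e8 : ∀ z ∈ Z, (8 : ℂ) ∉ P z := fun z hz hm => by
    have := (hP3 z hz 8).1 hm
    norm_num at this
    apply hne1 z hz
    linear_combination this / 1728
  have e4 : ∀ z ∈ Z, (-4 : ℂ) ∉ P z := fun z hz hm => by
    have := (hP3 z hz (-4)).1 hm
    norm_num at this
    exact hne0 z hz this
  have em0 : ∀ z ∈ Z, ∀ τ ∈ P z, τ ≠ 0 := fun z hz τ hm e => by
    have e1 := (hP3 z hz τ).1 hm
    rw [e] at e1
    norm_num at e1
  have em1 : ∀ z ∈ Z, (-1 : ℂ) ∉ P z := fun z hz hm => by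
    have := (hP3 z hz (-1)).1 hm
    norm_num at this
    apply hne1 z hz
    linear_combination this / 27
  have hdisj : ∀ x ∈ Z, ∀ y ∈ Z, x ≠ y → Disjoint (P x) (P y) := fun x hx y hy hxy => by
    rw [Finset.disjoint_left]
    intro τ h2 h3
    have e2 := (hP3 x hx τ).1 h2
    have e3 := (hP3 y hy τ).1 h3
    have e4 : (x - y) * (27 * τ ^ 2) = 0 := by linear_combination e2 - e3
    rcases mul_eq_zero.1 e4 with e5 | e5
    · exact hxy (sub_eq_zero.1 e5)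
    · exact em0 x hx τ h2 (by simpa using e5)
  have h8P : (8 : ℂ) ∉ Z.biUnion P := by
    rw [mem_biUnion]
    rintro ⟨z, hz, h⟩
    exact e8 z hz h
  have h4' : (-4 : ℂ) ∉ insert (8 : ℂ) (Z.biUnion P) := by
    rw [mem_insert, mem_biUnion]
    rintro (h | ⟨z, hz, h⟩)
    · norm_num at h
    · exact e4 z hz h
  have hcard : (insert (-4 : ℂ) (insert (8 : ℂ) (Z.biUnion P))).card = 2 + 3 * Z.card := by
    rw [card_insert_of_notMem h4', card_insert_of_notMem h8P, card_biUnion hdisj,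
      sum_congr rfl (fun z hz => hP1 z hz), sum_const, smul_eq_mul]
    ring
  refine ⟨insert (-4 : ℂ) (insert (8 : ℂ) (Z.biUnion P)), ?_, ?_, ?_, |C| * 27 * 125 ^ (6 * Z.card + 6), ?_⟩
  · intro z hz
    rw [mem_insert, mem_insert, mem_biUnion] at hz
    rcases hz with rfl | rfl | ⟨y, hy, h⟩
    · exact (alg_num 4).neg
    · exact alg_num 8
    · exact hP4 y hy z h
  · rw [mem_insert, mem_insert, mem_biUnion]
    rintro (h | h | ⟨y, hy, h⟩)
    · norm_num at h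
    · norm_num at h
    · exact em0 y hy _ h rfl
  · rw [mem_insert, mem_insert, mem_biUnion]
    rintro (h | h | ⟨y, hy, h⟩)
    · norm_num at h
    · norm_num at h
    · exact em1 y hy h
  · rintro s u ⟨t, ⟨hs1, hst⟩, htu⟩
    have hI := hC t u htu
    obtain ⟨H, hH⟩ : ∃ H : ℝ, H = |27 * (s : ℝ) ^ 2| := ⟨_, rfl⟩
    have hH0 : 0 ≤ H := by rw [hH]; positivity
    have hstR : (t : ℝ) * (27 * (s : ℝ) ^ 2) = -((s : ℝ) + 4) ^ 3 := by exact_mod_cast hst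
    have hstC : (t : ℂ) * (27 * (s : ℂ) ^ 2) = -((s : ℂ) + 4) ^ 3 := by exact_mod_cast hst
    have hHC : ‖(27 * (s : ℂ) ^ 2)‖ = H := by
      rw [hH]
      have : (27 * (s : ℂ) ^ 2) = (((27 * (s : ℝ) ^ 2 : ℝ)) : ℂ) := by push_cast; ring
      rw [this, Complex.norm_real, Real.norm_eq_abs]
    have hprod : ∏ z ∈ Z, ∏ τ ∈ P z, ‖(s : ℂ) - τ‖ ^ 6 = (∏ z ∈ Z, ‖(t : ℂ) - z‖ ^ 6) * H ^ (6 * Z.card) := by
      have : ∀ z ∈ Z, ∏ τ ∈ P z, ‖(s : ℂ) - τ‖ ^ 6 = ‖(t : ℂ) - z‖ ^ 6 * H ^ 6 := fun z hz => by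
        rw [prod_pow, ← norm_prod, hP2 z hz s, ← mul_pow, ← hHC, ← norm_mul, ← norm_neg]
        congr 2
        linear_combination -hstC
      rw [prod_congr rfl this, prod_mul_distrib, prod_const, ← pow_mul]
    have h8n : ‖(s : ℂ) - 8‖ = |(s : ℝ) - 8| := by
      have : (s : ℂ) - 8 = (((s : ℝ) - 8 : ℝ) : ℂ) := by push_cast; ring
      rw [this, Complex.norm_real, Real.norm_eq_abs]
    have h4n : ‖(s : ℂ) - (-4)‖ = |(s : ℝ) + 4| := by
      have : (s : ℂ) - (-4) = (((s : ℝ) + 4 : ℝ) : ℂ) := by push_cast; ring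
      rw [this, Complex.norm_real, Real.norm_eq_abs]
    rw [prod_insert h4', prod_insert h8P, prod_biUnion (by
      intro x hx y hy hxy
      exact hdisj x hx y hy hxy), hprod, h8n, h4n, hcard]
    have g1 : |(t : ℝ)| ^ 2 * H ^ 2 = |(s : ℝ) + 4| ^ 6 := by
      rw [← mul_pow, hH, ← abs_mul, hstR, abs_neg, abs_pow]
      ring
    have g2 : |(t : ℝ) + 1| ^ 3 * H ^ 3 = |(s : ℝ) + 1| ^ 3 * |(s : ℝ) - 8| ^ 6 := by
      rw [← mul_pow, hH, ← abs_mul]
      have : ((t : ℝ) + 1) * (27 * (s : ℝ) ^ 2) = -(((s : ℝ) + 1) * ((s : ℝ) - 8) ^ 2) := by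
        linear_combination hstR
      rw [this, abs_neg, abs_mul, abs_pow]
      ring
    have g3 : |(s : ℝ)| ^ 2 ≤ H := by
      rw [hH, abs_mul, abs_pow, abs_of_nonneg (by norm_num : (0 : ℝ) ≤ 27)]
      have : 0 ≤ |(s : ℝ)| ^ 2 := by positivity
      linarith
    obtain ⟨Q, hQ⟩ : ∃ Q : ℝ, Q = ∏ z ∈ Z, ‖(t : ℂ) - z‖ ^ 6 := ⟨_, rfl⟩
    have hQ0 : 0 ≤ Q := by rw [hQ]; exact prod_nonneg fun _ _ => by positivity
    rw [← hQ] at hI ⊢
    have hM1 := one_le_M s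
    have hMH : M t * H ≤ 125 * M s ^ 3 := by
      have hsM := abs_le_M s
      have h4 : M s ^ 2 ≤ M s ^ 3 := pow_le_pow_right₀ hM1 (by norm_num)
      refine Mt_le (G := 0) hH0 ?_ ?_
      · rw [hH, abs_mul, abs_pow, abs_of_nonneg (by norm_num : (0 : ℝ) ≤ 27)]
        have h6 : |(s : ℝ)| ^ 2 ≤ (M s) ^ 2 := pow_le_pow_left₀ (abs_nonneg _) hsM 2
        have h7 : 0 ≤ M s ^ 3 := by positivity
        nlinarith
      · rw [hH, ← abs_mul, hstR, abs_neg, abs_pow]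
        have h5 : |(s : ℝ) + 4| ≤ 5 * M s := by
          refine (abs_add_le _ _).trans ?_
          rw [abs_of_nonneg (by norm_num : (0 : ℝ) ≤ 4)]
          linarith
        calc |(s : ℝ) + 4| ^ 3 ≤ (5 * M s) ^ 3 := pow_le_pow_left₀ (abs_nonneg _) h5 3
          _ = _ := by ring
    calc |(u : ℝ)| * |(s : ℝ)| ^ 2 * |(s : ℝ) + 1| ^ 3 * (|(s : ℝ) + 4| ^ 6 * (|(s : ℝ) - 8| ^ 6 *
          (Q * H ^ (6 * Z.card))))
        = (|(u : ℝ)| * |(s : ℝ) + 4| ^ 6 * (|(s : ℝ) + 1| ^ 3 * |(s : ℝ) - 8| ^ 6) * Q) *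
            H ^ (6 * Z.card) * |(s : ℝ)| ^ 2 := by ring
      _ = (|(u : ℝ)| * |(t : ℝ)| ^ 2 * |(t : ℝ) + 1| ^ 3 * Q) * (H ^ (6 * Z.card) * H ^ 5) * |(s : ℝ)| ^ 2 := by
          rw [← g1, ← g2]
          ring
      _ ≤ (|C| * M t ^ (6 * Z.card + 6)) * (H ^ (6 * Z.card) * H ^ 5) * H := by
          have hCM : C * M t ^ (6 * Z.card + 6) ≤ |C| * M t ^ (6 * Z.card + 6) :=
            mul_le_mul_of_nonneg_right (le_abs_self C) (pow_nonneg (M_pos t).le _)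
          refine mul_le_mul (mul_le_mul_of_nonneg_right (hI.trans hCM) (by positivity)) g3 (by positivity) ?_
          have := (M_pos t).le
          positivity
      _ = |C| * (M t * H) ^ (6 * Z.card + 6) := by ring
      _ ≤ |C| * (125 * M s ^ 3) ^ (6 * Z.card + 6) := by
          refine mul_le_mul_of_nonneg_left (pow_le_pow_left₀ ?_ hMH _) (abs_nonneg C)
          have := (M_pos t).le
          positivity
      _ ≤ |C| * 27 * 125 ^ (6 * Z.card + 6) * M s ^ (6 * (2 + 3 * Z.card) + 6) := by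
          rw [mul_pow, ← pow_mul, show 3 * (6 * Z.card + 6) = 6 * (2 + 3 * Z.card) + 6 by ring]
          have h9 : 0 ≤ |C| * ((125 : ℝ) ^ (6 * Z.card + 6) * M s ^ (6 * (2 + 3 * Z.card) + 6)) := by
            have := (M_pos s).le
            positivity
          nlinarith

/-- the identity -/
theorem prox_id : Prox (fun s t => t = s) := by
  refine ⟨∅, by simp, by simp, by simp, 8, ?_⟩
  rintro s t rfl
  rw [prod_empty, mul_one, card_empty]
  have h1 := abs_le_M t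
  have h2 := one_le_M t
  have h5 : |(t : ℝ) + 1| ≤ 2 * M t := by
    refine (abs_add_le _ _).trans ?_
    rw [abs_one]
    linarith
  calc |(t : ℝ)| * |(t : ℝ)| ^ 2 * |(t : ℝ) + 1| ^ 3 = |(t : ℝ)| ^ 3 * |(t : ℝ) + 1| ^ 3 := by ring
    _ ≤ M t ^ 3 * (2 * M t) ^ 3 := mul_le_mul (pow_le_pow_left₀ (abs_nonneg _) h1 3)
        (pow_le_pow_left₀ (abs_nonneg _) h5 3) (by positivity) (by positivity)
    _ = _ := by ring

end Pool.Agent.T9h58.Hall
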